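import Pool.Agent.TH124.KE.Walk

/-!
# Edges with exactly `k` points below: alternation around a point
-/

set_option autoImplicit false

namespace Pool.Agent.TH124.KE

open Finset Pool.Agent.W296.HL

/-- slope of the line through `p` and `q` -/
noncomputable def sl (p q : ℝ × ℝ) : ℝ := (q.2 - p.2) / (q.1 - p.1)

/-- height of the line of slope `σ` through `p` -/
def hh (σ : ℝ) (p : ℝ × ℝ) : ℝ := p.2 - σ * p.1

lemma sl_comm (p q : ℝ × ℝ) : sl p q = sl q p := by
  unfold sl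
  rw [← neg_sub p.2 q.2, ← neg_sub p.1 q.1, neg_div_neg_eq]

lemma hh_lt_right {p q : ℝ × ℝ} (h : p.1 < q.1) (σ : ℝ) : hh σ q < hh σ p ↔ sl p q < σ := by
  unfold hh sl
  rw [div_lt_iff₀ (by linarith)]
  constructor <;> intro h1 <;> nlinarith

lemma hh_lt_left {p q : ℝ × ℝ} (h : q.1 < p.1) (σ : ℝ) : hh σ q < hh σ p ↔ σ < sl p q := by
  unfold hh sl
  rw [lt_div_iff_of_neg (by linarith)]
  constructor <;> intro h1 <;> nlinarith

lemma hh_eq {p q : ℝ × ℝ} (h : p.1 ≠ q.1) (σ : ℝ) : hh σ q = hh σ p ↔ sl p q = σ := by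
  unfold hh sl
  have h0 : q.1 - p.1 ≠ 0 := sub_ne_zero.mpr (Ne.symm h)
  rw [div_eq_iff h0]
  constructor <;> intro h1 <;> linarith

lemma hh_sl {p q : ℝ × ℝ} (h : p.1 ≠ q.1) : hh (sl p q) q = hh (sl p q) p := (hh_eq h _).mpr rfl

/-- general position: distinct abscissae and no three collinear points -/
structure GP (P : Finset (ℝ × ℝ)) : Prop where
  inj : ∀ p ∈ P, ∀ q ∈ P, p.1 = q.1 → p = q
  col : ∀ p ∈ P, ∀ q ∈ P, ∀ r ∈ P, p ≠ q → p ≠ r → q ≠ r → sl p q ≠ sl p r

/-- number of points strictly below the line of slope `σ` through `p` -/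
noncomputable def bel (P : Finset (ℝ × ℝ)) (σ : ℝ) (p : ℝ × ℝ) : ℕ := #{r ∈ P | hh σ r < hh σ p}

/-- the segment from `p` to `q` (to the right of `p`) has exactly `k` points strictly below
its line -/
def KE (P : Finset (ℝ × ℝ)) (k : ℕ) (p q : ℝ × ℝ) : Prop :=
  p ∈ P ∧ q ∈ P ∧ p.1 < q.1 ∧ bel P (sl p q) p = k

variable {P : Finset (ℝ × ℝ)} {k : ℕ}

lemma GP.injOn (hP : GP P) {p : ℝ × ℝ} (hp : p ∈ P) : Set.InjOn (sl p) (P.erase p) := by
  intro q hq r hr h
  rw [mem_coe, mem_erase] at hq hr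
  by_contra hqr
  exact hP.col p hp q hq.2 r hr.2 (Ne.symm hq.1) (Ne.symm hr.1) hqr h

lemma GP.ne1 (hP : GP P) {p q : ℝ × ℝ} (hp : p ∈ P) (hq : q ∈ P) (h : p ≠ q) : p.1 ≠ q.1 :=
  fun h1 => h (hP.inj p hp q hq h1)

/-- the number of points to the left of `p` -/
noncomputable def lft (P : Finset (ℝ × ℝ)) (p : ℝ × ℝ) : ℕ := #{q ∈ P | q.1 < p.1}

/-- the number of points below a line through `p` as a walk -/
lemma bel_eq (hP : GP P) {p : ℝ × ℝ} (hp : p ∈ P) (σ : ℝ) :
    (bel P σ p : ℤ) + #{q ∈ P | q.1 < p.1 ∧ sl p q = σ} =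
      lft P p + ∑ q ∈ P.erase p, if sl p q < σ then stp (fun q => p.1 < q.1) q else 0 := by
  have e1 : bel P σ p = ∑ q ∈ P.erase p, if hh σ q < hh σ p then 1 else 0 := by
    unfold bel
    rw [Finset.card_filter, ← Finset.add_sum_erase P _ hp]
    simp
  have e2 : #{q ∈ P | q.1 < p.1 ∧ sl p q = σ} =
      ∑ q ∈ P.erase p, if q.1 < p.1 ∧ sl p q = σ then 1 else 0 := by
    rw [Finset.card_filter, ← Finset.add_sum_erase P _ hp]
    simp
  have e3 : lft P p = ∑ q ∈ P.erase p, if q.1 < p.1 then 1 else 0 := by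
    unfold lft
    rw [Finset.card_filter, ← Finset.add_sum_erase P _ hp]
    simp
  rw [e1, e2, e3]
  push_cast
  rw [← Finset.sum_add_distrib, ← Finset.sum_add_distrib]
  refine Finset.sum_congr rfl fun q hq => ?_
  rw [mem_erase] at hq
  unfold stp
  rcases lt_or_gt_of_ne (hP.ne1 hp hq.2 (Ne.symm hq.1)) with h | h
  · have h1 := hh_lt_right h σ
    have h2 : ¬ q.1 < p.1 := not_lt.mpr h.le
    by_cases h3 : sl p q < σ
    · simp [h1, h2, h3, h]
    · simp [h1, h2, h3]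
  · have h1 := hh_lt_left h σ
    have h2 : ¬ p.1 < q.1 := not_lt.mpr h.le
    rcases lt_trichotomy (sl p q) σ with h3 | h3 | h3
    · simp [h1, h2, h3, h, h3.ne, not_lt.mpr h3.le]
    · simp [h1, h3, h]
    · simp [h1, h3, h, h3.ne', not_lt.mpr h3.le]

/-- edges to the right of `p` are the up-steps from a fixed level -/
lemma ke_right (hP : GP P) {p q : ℝ × ℝ} (hp : p ∈ P) :
    KE P k p q ↔ q ∈ P.erase p ∧ p.1 < q.1 ∧
      wlk (sl p) (fun q => p.1 < q.1) (P.erase p) q = (k : ℤ) - lft P p := by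
  unfold KE
  constructor
  · rintro ⟨-, h2, h3, h4⟩
    have hne : q ≠ p := by rintro rfl; exact lt_irrefl _ h3
    refine ⟨mem_erase.mpr ⟨hne, h2⟩, h3, ?_⟩
    have h := bel_eq hP hp (sl p q)
    have h5 : #{r ∈ P | r.1 < p.1 ∧ sl p r = sl p q} = 0 := by
      rw [Finset.card_eq_zero, Finset.filter_eq_empty_iff]
      rintro r hr ⟨h6, h7⟩
      have hrp : r ≠ p := by rintro rfl; exact lt_irrefl _ h6
      have hqr : q ≠ r := by rintro rfl; linarith
      exact hP.col p hp q h2 r hr (Ne.symm hne) (Ne.symm hrp) hqr h7.symm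
    rw [h5, h4] at h
    unfold wlk
    push_cast at h
    linarith
  · rintro ⟨h1, h3, h4⟩
    rw [mem_erase] at h1
    refine ⟨hp, h1.2, h3, ?_⟩
    have h := bel_eq hP hp (sl p q)
    have h5 : #{r ∈ P | r.1 < p.1 ∧ sl p r = sl p q} = 0 := by
      rw [Finset.card_eq_zero, Finset.filter_eq_empty_iff]
      rintro r hr ⟨h6, h7⟩
      have hrp : r ≠ p := by rintro rfl; exact lt_irrefl _ h6
      have hqr : q ≠ r := by rintro rfl; linarith
      exact hP.col p hp q h1.2 r hr (Ne.symm h1.1) (Ne.symm hrp) hqr h7.symm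
    rw [h5] at h
    unfold wlk at h4
    push_cast at h
    omega

/-- edges to the left of `p` are the down-steps to the same level -/
lemma ke_left (hP : GP P) {p q : ℝ × ℝ} (hp : p ∈ P) :
    KE P k q p ↔ q ∈ P.erase p ∧ ¬ p.1 < q.1 ∧
      wlk (sl p) (fun q => p.1 < q.1) (P.erase p) q = (k : ℤ) - lft P p + 1 := by
  have key : ∀ q ∈ P, q.1 < p.1 → (bel P (sl q p) q = k ↔
      wlk (sl p) (fun q => p.1 < q.1) (P.erase p) q = (k : ℤ) - lft P p + 1) := by
    intro q hq hqp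
    have hne : q ≠ p := by rintro rfl; exact lt_irrefl _ hqp
    have e : bel P (sl q p) q = bel P (sl p q) p := by
      unfold bel
      rw [sl_comm q p, hh_sl (ne_of_gt hqp)]
    rw [e]
    have h := bel_eq hP hp (sl p q)
    have h5 : #{r ∈ P | r.1 < p.1 ∧ sl p r = sl p q} = 1 := by
      rw [Finset.card_eq_one]
      refine ⟨q, ?_⟩
      ext r
      simp only [mem_filter, mem_singleton]
      constructor
      · rintro ⟨hr, h6, h7⟩
        by_contra hrq
        have hrp : r ≠ p := by rintro rfl; exact lt_irrefl _ h6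
        exact hP.col p hp r hr q hq (Ne.symm hrp) (Ne.symm hne) hrq h7
      · rintro rfl
        exact ⟨hq, hqp, rfl⟩
    rw [h5] at h
    unfold wlk
    push_cast at h
    constructor <;> intro h8 <;> omega
  unfold KE
  constructor
  · rintro ⟨h1, -, h3, h4⟩
    have hne : q ≠ p := by rintro rfl; exact lt_irrefl _ h3
    exact ⟨mem_erase.mpr ⟨hne, h1⟩, not_lt.mpr h3.le, (key q h1 h3).mp h4⟩
  · rintro ⟨h1, h3, h4⟩
    rw [mem_erase] at h1
    have h5 : q.1 < p.1 := lt_of_le_of_ne (not_lt.mp h3) (hP.ne1 h1.2 hp h1.1)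
    exact ⟨h1.2, hp, h5, (key q h1.2 h5).mpr h4⟩

/-- between two edges to the right there is an edge to the left -/
lemma altR (hP : GP P) {p q₁ q₂ : ℝ × ℝ} (h1 : KE P k p q₁) (h2 : KE P k p q₂)
    (h : sl p q₁ < sl p q₂) : ∃ u, KE P k u p ∧ sl p q₁ < sl u p ∧ sl u p < sl p q₂ := by
  have hp := h1.1
  have h1' := (ke_right hP hp).mp h1
  have h2' := (ke_right hP hp).mp h2
  obtain ⟨x, hx, hB, hw, h3, h4⟩ := walk_down (sl p) (fun q => p.1 < q.1) ((k : ℤ) - lft P p)
    (P.erase p) (hP.injOn hp) h1'.1 h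
    (by rw [h1'.2.2]; unfold stp; rw [if_pos h1'.2.1])
    (by
      have := h2'.2.2
      unfold wlk at this
      exact this.le)
  refine ⟨x, (ke_left hP hp).mpr ⟨hx, hB, hw⟩, ?_, ?_⟩
  · rw [sl_comm x p]; exact h3
  · rw [sl_comm x p]; exact h4

/-- between two edges to the left there is an edge to the right -/
lemma altL (hP : GP P) {p u₁ u₂ : ℝ × ℝ} (h1 : KE P k u₁ p) (h2 : KE P k u₂ p)
    (h : sl u₁ p < sl u₂ p) : ∃ q, KE P k p q ∧ sl u₁ p < sl p q ∧ sl p q < sl u₂ p := by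
  have hp := h1.2.1
  have h1' := (ke_left hP hp).mp h1
  have h2' := (ke_left hP hp).mp h2
  rw [sl_comm u₁ p, sl_comm u₂ p] at h
  obtain ⟨x, hx, hB, hw, h3, h4⟩ := walk_up (sl p) (fun q => p.1 < q.1) ((k : ℤ) - lft P p)
    (P.erase p) (hP.injOn hp) h1'.1 h
    (by rw [h1'.2.2]; unfold stp; rw [if_neg h1'.2.1]; omega)
    (by
      have := h2'.2.2
      unfold wlk at this
      exact this.ge)
  refine ⟨x, (ke_right hP hp).mpr ⟨hx, hB, hw⟩, ?_, ?_⟩
  · rw [sl_comm u₁ p]; exact h3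
  · rw [sl_comm u₂ p]; exact h4

/-- after an edge to the right, and before the next edge to the left, more than `k` points
are below -/
lemma bel_after (hP : GP P) {p q v : ℝ × ℝ} (h1 : KE P k p q) (hv : v ∈ P) (hpv : p.1 < v.1)
    (h : sl p q < sl p v) (hno : ∀ u, KE P k u p → ¬ (sl p q < sl u p ∧ sl u p < sl p v)) :
    k + 1 ≤ bel P (sl p v) p := by
  by_contra hcon
  have hp := h1.1
  have h1' := (ke_right hP hp).mp h1
  have hb := bel_eq hP hp (sl p v)
  have h5 : #{r ∈ P | r.1 < p.1 ∧ sl p r = sl p v} = 0 := by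
    rw [Finset.card_eq_zero, Finset.filter_eq_empty_iff]
    rintro r hr ⟨h6, h7⟩
    have hrp : r ≠ p := by rintro rfl; exact lt_irrefl _ h6
    have hvr : v ≠ r := by rintro rfl; linarith
    have hvp : p ≠ v := by rintro rfl; exact lt_irrefl _ hpv
    exact hP.col p hp v hv r hr hvp (Ne.symm hrp) hvr h7.symm
  rw [h5] at hb
  obtain ⟨x, hx, hB, hw, h3, h4⟩ := walk_down (sl p) (fun q => p.1 < q.1) ((k : ℤ) - lft P p)
    (P.erase p) (hP.injOn hp) h1'.1 h
    (by rw [h1'.2.2]; unfold stp; rw [if_pos h1'.2.1])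
    (by push_cast at hb; omega)
  refine hno x ((ke_left hP hp).mpr ⟨hx, hB, hw⟩) ⟨?_, ?_⟩
  · rw [sl_comm x p]; exact h3
  · rw [sl_comm x p]; exact h4

/-- adjacency -/
def Adj (P : Finset (ℝ × ℝ)) (k : ℕ) (p q : ℝ × ℝ) : Prop := KE P k p q ∨ KE P k q p

lemma Adj.symm {p q : ℝ × ℝ} (h : Adj P k p q) : Adj P k q p := Or.symm h

lemma Adj.mem_left {p q : ℝ × ℝ} (h : Adj P k p q) : p ∈ P := by
  rcases h with h | h
  · exact h.1
  · exact h.2.1

lemma Adj.mem_right {p q : ℝ × ℝ} (h : Adj P k p q) : q ∈ P := h.symm.mem_left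

lemma Adj.ne {p q : ℝ × ℝ} (h : Adj P k p q) : p ≠ q := by
  rintro rfl
  rcases h with h | h <;> exact lt_irrefl _ h.2.2.1

open scoped Classical in
/-- If the set `S` lies weakly below (above) a line through `a`, then there are at most two more
edges from `a` to `S` than edges from `a` to points strictly on the other side. -/
lemma deg_le (hP : GP P) {a : ℝ × ℝ} (ha : a ∈ P) (τ : ℝ) (S : Finset (ℝ × ℝ))
    (hS : (∀ q ∈ S, hh τ q ≤ hh τ a) ∨ (∀ q ∈ S, hh τ a ≤ hh τ q)) :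
    #{q ∈ P | q ∈ S ∧ Adj P k a q} ≤ #{q ∈ P | q ∉ S ∧ Adj P k a q} + 2 := by
  set L := P.erase a with hL
  set s := sl a with hs
  set t : ℤ := (k : ℤ) - lft P a with ht
  have hsub : ∀ q, Adj P k a q → q ∈ L ∧ ((a.1 < q.1 ∧ wlk s (fun q => a.1 < q.1) L q = t) ∨
      (¬ a.1 < q.1 ∧ wlk s (fun q => a.1 < q.1) L q = t + 1)) := by
    rintro q (h | h)
    · have := (ke_right hP ha).mp h
      exact ⟨this.1, Or.inl this.2⟩
    · have := (ke_left hP ha).mp h
      exact ⟨this.1, Or.inr this.2⟩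
  have hadjR : ∀ q ∈ L, a.1 < q.1 → wlk s (fun q => a.1 < q.1) L q = t → Adj P k a q :=
    fun q h1 h2 h3 => Or.inl ((ke_right hP ha).mpr ⟨h1, h2, h3⟩)
  have hadjL : ∀ q ∈ L, ¬ a.1 < q.1 → wlk s (fun q => a.1 < q.1) L q = t + 1 → Adj P k a q :=
    fun q h1 h2 h3 => Or.inr ((ke_left hP ha).mpr ⟨h1, h2, h3⟩)
  have hPL : ∀ q ∈ L, q ∈ P ∧ q.1 ≠ a.1 := fun q hq =>
    ⟨(mem_erase.mp hq).2, hP.ne1 (mem_erase.mp hq).2 ha (mem_erase.mp hq).1⟩
  rcases hS with hS | hS
  · -- `S` below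
    let D : ℝ × ℝ → Prop := fun q => s q < τ ∨ (s q = τ ∧ a.1 < q.1)
    have hD : ∀ y ∈ L, ∀ z ∈ L, D y → s z < s y → D z := by
      rintro y - z - (h | h) hz
      · exact Or.inl (hz.trans h)
      · exact Or.inl (h.1 ▸ hz)
    have hi := (walk_initial s (fun q => a.1 < q.1) D t L (hP.injOn ha) hD).1
    have hf := (walk_final s (fun q => a.1 < q.1) D t L (hP.injOn ha) hD).2
    have h1 : #{q ∈ P | q ∈ S ∧ Adj P k a q} ≤
        #{x ∈ L | D x ∧ a.1 < x.1 ∧ wlk s (fun q => a.1 < q.1) L x = t} +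
        #{x ∈ L | ¬ D x ∧ ¬ a.1 < x.1 ∧ wlk s (fun q => a.1 < q.1) L x = t + 1} := by
      refine le_trans (Finset.card_le_card ?_) (Finset.card_union_le _ _)
      intro q hq
      rw [mem_filter] at hq
      obtain ⟨hqP, hqS, hadj⟩ := hq
      obtain ⟨hqL, hc⟩ := hsub q hadj
      rw [mem_union, mem_filter, mem_filter]
      have hle := hS q hqS
      rcases hc with ⟨hc1, hc2⟩ | ⟨hc1, hc2⟩
      · left
        refine ⟨hqL, ?_, hc1, hc2⟩
        rcases lt_or_eq_of_le hle with h | h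
        · exact Or.inl ((hh_lt_right hc1 τ).mp h)
        · exact Or.inr ⟨(hh_eq hc1.ne τ).mp h, hc1⟩
      · right
        have hlt : q.1 < a.1 := lt_of_le_of_ne (not_lt.mp hc1) (hPL q hqL).2
        refine ⟨hqL, ?_, hc1, hc2⟩
        rintro (h | h)
        · rcases lt_or_eq_of_le hle with h' | h'
          · exact absurd ((hh_lt_left hlt τ).mp h') (not_lt.mpr h.le)
          · exact absurd ((hh_eq hlt.ne' τ).mp h') h.ne
        · exact hc1 h.2
    have h2 : #{x ∈ L | D x ∧ ¬ a.1 < x.1 ∧ wlk s (fun q => a.1 < q.1) L x = t + 1} +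
        #{x ∈ L | ¬ D x ∧ a.1 < x.1 ∧ wlk s (fun q => a.1 < q.1) L x = t} ≤
        #{q ∈ P | q ∉ S ∧ Adj P k a q} := by
      rw [← Finset.card_union_of_disjoint]
      · apply Finset.card_le_card
        intro q hq
        rw [mem_union, mem_filter, mem_filter] at hq
        rw [mem_filter]
        rcases hq with ⟨hqL, hDq, hc1, hc2⟩ | ⟨hqL, hDq, hc1, hc2⟩
        · refine ⟨(hPL q hqL).1, ?_, hadjL q hqL hc1 hc2⟩
          intro hqS
          have hle := hS q hqS
          have hlt : q.1 < a.1 := lt_of_le_of_ne (not_lt.mp hc1) (hPL q hqL).2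
          rcases hDq with h | h
          · rcases lt_or_eq_of_le hle with h' | h'
            · exact absurd ((hh_lt_left hlt τ).mp h') (not_lt.mpr h.le)
            · exact absurd ((hh_eq hlt.ne' τ).mp h') h.ne
          · exact hc1 h.2
        · refine ⟨(hPL q hqL).1, ?_, hadjR q hqL hc1 hc2⟩
          intro hqS
          have hle := hS q hqS
          apply hDq
          rcases lt_or_eq_of_le hle with h | h
          · exact Or.inl ((hh_lt_right hc1 τ).mp h)
          · exact Or.inr ⟨(hh_eq hc1.ne τ).mp h, hc1⟩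
      · rw [Finset.disjoint_left]
        intro q h1 h2
        rw [mem_filter] at h1 h2
        exact h2.2.1 h1.2.1
    omega
  · -- `S` above
    let D : ℝ × ℝ → Prop := fun q => s q < τ ∨ (s q = τ ∧ ¬ a.1 < q.1)
    have hD : ∀ y ∈ L, ∀ z ∈ L, D y → s z < s y → D z := by
      rintro y - z - (h | h) hz
      · exact Or.inl (hz.trans h)
      · exact Or.inl (h.1 ▸ hz)
    have hi := (walk_initial s (fun q => a.1 < q.1) D t L (hP.injOn ha) hD).2
    have hf := (walk_final s (fun q => a.1 < q.1) D t L (hP.injOn ha) hD).1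
    have hge : ∀ q, a.1 < q.1 → hh τ a ≤ hh τ q → ¬ D q := by
      rintro q hc1 hle (h | h)
      · exact absurd ((hh_lt_right hc1 τ).mpr h) (not_lt.mpr hle)
      · exact h.2 hc1
    have hge' : ∀ q, q.1 < a.1 → hh τ a ≤ hh τ q → D q := by
      intro q hc1 hle
      have h1 : ¬ τ < s q := fun h => absurd ((hh_lt_left hc1 τ).mpr h) (not_lt.mpr hle)
      rcases lt_or_eq_of_le (not_lt.mp h1) with h | h
      · exact Or.inl h
      · exact Or.inr ⟨h, not_lt.mpr hc1.le⟩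
    have h1 : #{q ∈ P | q ∈ S ∧ Adj P k a q} ≤
        #{x ∈ L | D x ∧ ¬ a.1 < x.1 ∧ wlk s (fun q => a.1 < q.1) L x = t + 1} +
        #{x ∈ L | ¬ D x ∧ a.1 < x.1 ∧ wlk s (fun q => a.1 < q.1) L x = t} := by
      refine le_trans (Finset.card_le_card ?_) (Finset.card_union_le _ _)
      intro q hq
      rw [mem_filter] at hq
      obtain ⟨hqP, hqS, hadj⟩ := hq
      obtain ⟨hqL, hc⟩ := hsub q hadj
      rw [mem_union, mem_filter, mem_filter]
      have hle := hS q hqS
      rcases hc with ⟨hc1, hc2⟩ | ⟨hc1, hc2⟩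
      · exact Or.inr ⟨hqL, hge q hc1 hle, hc1, hc2⟩
      · have hlt : q.1 < a.1 := lt_of_le_of_ne (not_lt.mp hc1) (hPL q hqL).2
        exact Or.inl ⟨hqL, hge' q hlt hle, hc1, hc2⟩
    have h2 : #{x ∈ L | D x ∧ a.1 < x.1 ∧ wlk s (fun q => a.1 < q.1) L x = t} +
        #{x ∈ L | ¬ D x ∧ ¬ a.1 < x.1 ∧ wlk s (fun q => a.1 < q.1) L x = t + 1} ≤
        #{q ∈ P | q ∉ S ∧ Adj P k a q} := by
      rw [← Finset.card_union_of_disjoint]
      · apply Finset.card_le_card
        intro q hq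
        rw [mem_union, mem_filter, mem_filter] at hq
        rw [mem_filter]
        rcases hq with ⟨hqL, hDq, hc1, hc2⟩ | ⟨hqL, hDq, hc1, hc2⟩
        · exact ⟨(hPL q hqL).1, fun hqS => hge q hc1 (hS q hqS) hDq, hadjR q hqL hc1 hc2⟩
        · have hlt : q.1 < a.1 := lt_of_le_of_ne (not_lt.mp hc1) (hPL q hqL).2
          exact ⟨(hPL q hqL).1, fun hqS => hDq (hge' q hlt (hS q hqS)), hadjL q hqL hc1 hc2⟩
      · rw [Finset.disjoint_left]
        intro q h1 h2
        rw [mem_filter] at h1 h2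
        exact h2.2.1 h1.2.1
    omega

end Pool.Agent.TH124.KE
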