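import Pool.Agent.TH124.KE.Planar

/-!
# Concave chains and bridges: Dey's bound for the number of crossings of `k`-edges
-/

set_option autoImplicit false

namespace Pool.Agent.TH124.KE

open Finset

variable {P : Finset (ℝ × ℝ)} {k : ℕ}

/-- `f` follows `e` on a concave chain: `f` leaves the right end of `e`, turns down, and no edge
at this point has its slope in between -/
def Nxt (P : Finset (ℝ × ℝ)) (k : ℕ) (e f : Seg) : Prop :=
  KE P k e.1 e.2 ∧ KE P k f.1 f.2 ∧ f.1 = e.2 ∧ ss f < ss e ∧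
    (∀ q, KE P k e.2 q → ¬ (ss f < sl e.2 q ∧ sl e.2 q < ss e)) ∧
    (∀ u, KE P k u e.2 → ¬ (ss f < sl u e.2 ∧ sl u e.2 < ss e))

lemma seg_ext' {V : Finset (ℝ × ℝ)} (hV : GP V) {e f : Seg} (he1 : e.1 ∈ V) (he2 : e.2 ∈ V)
    (he : e.1.1 < e.2.1) (hf1 : f.1 ∈ V) (hf : f.1.1 < f.2.1)
    (h1 : e.2 = f.2) (h2 : ss e = ss f) : e = f := by
  refine Prod.ext ?_ h1
  by_contra hne
  have h3 : e.2 ≠ e.1 := by intro hc; rw [hc] at he; exact lt_irrefl _ he
  have h4 : e.2 ≠ f.1 := by intro hc; rw [h1] at hc; rw [hc] at hf; exact lt_irrefl _ hf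
  apply hV.col e.2 he2 e.1 he1 f.1 hf1 h3 h4 hne
  have e1 : ss e = sl e.2 e.1 := by rw [sl_comm]; rfl
  have e2 : ss f = sl e.2 f.1 := by rw [sl_comm, h1]; rfl
  rw [← e1, ← e2, h2]

lemma nxt_right_unique (hP : GP P) {e f g : Seg} (h1 : Nxt P k e f) (h2 : Nxt P k e g) :
    f = g := by
  obtain ⟨-, a2, a3, a4, a5, -⟩ := h1
  obtain ⟨-, b2, b3, b4, b5, -⟩ := h2
  refine seg_ext hP a2.1 a2.2.1 a2.2.2.1 b2.2.1 b2.2.2.1 (a3.trans b3.symm) ?_
  rcases lt_trichotomy (ss f) (ss g) with h | h | h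
  · refine absurd ?_ (a5 g.2 (by rw [← b3]; exact b2))
    have : sl e.2 g.2 = ss g := by rw [← b3]; rfl
    rw [this]
    exact ⟨h, b4⟩
  · exact h
  · refine absurd ?_ (b5 f.2 (by rw [← a3]; exact a2))
    have : sl e.2 f.2 = ss f := by rw [← a3]; rfl
    rw [this]
    exact ⟨h, a4⟩

lemma nxt_left_unique (hP : GP P) {e f g : Seg} (h1 : Nxt P k e g) (h2 : Nxt P k f g) :
    e = f := by
  obtain ⟨a1, -, a3, a4, -, a6⟩ := h1
  obtain ⟨b1, -, b3, b4, -, b6⟩ := h2
  have hef : e.2 = f.2 := a3.symm.trans b3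
  refine seg_ext' hP a1.1 a1.2.1 a1.2.2.1 b1.1 b1.2.2.1 hef ?_
  rcases lt_trichotomy (ss e) (ss f) with h | h | h
  · refine absurd ?_ (b6 e.1 (by rw [← hef]; exact a1))
    have : sl e.1 f.2 = ss e := by rw [← hef]; rfl
    rw [this]
    exact ⟨a4, h⟩
  · exact h
  · refine absurd ?_ (a6 f.1 (by rw [hef]; exact b1))
    have : sl f.1 e.2 = ss f := by rw [hef]; rfl
    rw [this]
    exact ⟨b4, h⟩

/-- reachability on a chain -/
abbrev Fwd (P : Finset (ℝ × ℝ)) (k : ℕ) : Seg → Seg → Prop := Relation.ReflTransGen (Nxt P k)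

lemma fwd_ke {e f : Seg} (h : Fwd P k e f) (he : KE P k e.1 e.2) : KE P k f.1 f.2 := by
  induction h with
  | refl => exact he
  | tail _ h _ => exact h.2.1

lemma fwd_ke' {e f : Seg} (h : Fwd P k e f) (hf : KE P k f.1 f.2) : KE P k e.1 e.2 := by
  rcases Relation.ReflTransGen.cases_head h with h | ⟨g, h, -⟩
  · rw [h]; exact hf
  · exact h.1

lemma fwd_or {e f : Seg} (h : Fwd P k e f) : e = f ∨ (e.2.1 ≤ f.1.1 ∧ ss f < ss e) := by
  induction h with
  | refl => exact Or.inl rfl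
  | @tail b c _ h ih =>
    obtain ⟨h1, h2, h3, h4, -⟩ := h
    right
    rcases ih with ih | ih
    · rw [ih, h3]
      exact ⟨le_rfl, h4⟩
    · rw [h3]
      exact ⟨ih.1.trans h1.2.2.1.le, h4.trans ih.2⟩

lemma hh_edge {e : Seg} (h : e.1.1 < e.2.1) (σ : ℝ) :
    hh σ e.2 = hh σ e.1 + (ss e - σ) * (e.2.1 - e.1.1) := by
  have h1 := ev_right h
  unfold ev at h1
  unfold hh
  rw [← h1]; ring

lemma fwd_inc {e f : Seg} (h : Fwd P k e f) {σ : ℝ} (hσ : σ ≤ ss f) :
    e = f ∨ hh σ e.2 ≤ hh σ f.1 := by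
  induction h with
  | refl => exact Or.inl rfl
  | @tail b c _ h ih =>
    obtain ⟨h1, h2, h3, h4, -⟩ := h
    right
    have hb := hh_edge h1.2.2.1 σ
    have h5 : 0 ≤ (ss b - σ) * (b.2.1 - b.1.1) :=
      mul_nonneg (by linarith) (by linarith [h1.2.2.1])
    rw [h3]
    rcases ih (by linarith) with ih | ih
    · rw [ih]
    · linarith

lemma fwd_dec {e f : Seg} (h : Fwd P k e f) {σ : ℝ} (hσ : ss e ≤ σ) :
    e = f ∨ hh σ f.1 ≤ hh σ e.2 := by
  induction h using Relation.ReflTransGen.head_induction_on with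
  | refl => exact Or.inl rfl
  | @head b c h _ ih =>
    obtain ⟨h1, h2, h3, h4, -⟩ := h
    right
    have hb := hh_edge h2.2.2.1 σ
    have h5 : (ss c - σ) * (c.2.1 - c.1.1) ≤ 0 :=
      mul_nonpos_of_nonpos_of_nonneg (by linarith) (by linarith [h2.2.2.1])
    rcases ih (by linarith) with ih | ih
    · rw [← ih, h3]
    · rw [h3] at hb h5
      linarith

lemma fwd_inc' {e f : Seg} (h : Fwd P k e f) (he : e.1.1 < e.2.1) {σ : ℝ} (hσ : σ ≤ ss f) :
    hh σ e.1 ≤ hh σ f.1 := by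
  rcases fwd_inc h hσ with h1 | h1
  · rw [h1]
  · have h2 : ss f ≤ ss e := by
      rcases fwd_or h with h2 | h2
      · rw [h2]
      · exact h2.2.le
    have hb := hh_edge he σ
    have h5 : 0 ≤ (ss e - σ) * (e.2.1 - e.1.1) := mul_nonneg (by linarith) (by linarith)
    linarith

lemma fwd_dec' {e f : Seg} (h : Fwd P k e f) (hf : f.1.1 < f.2.1) {σ : ℝ} (hσ : ss e ≤ σ) :
    hh σ f.2 ≤ hh σ e.2 := by
  rcases fwd_dec h hσ with h1 | h1
  · rw [h1]
  · have h2 : ss f ≤ ss e := by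
      rcases fwd_or h with h2 | h2
      · rw [h2]
      · exact h2.2.le
    have hb := hh_edge hf σ
    have h5 : (ss f - σ) * (f.2.1 - f.1.1) ≤ 0 :=
      mul_nonpos_of_nonpos_of_nonneg (by linarith) (by linarith)
    linarith

/-- an edge to the left above `f` gives a predecessor of `f` -/
lemma exists_pred (hP : GP P) {f : Seg} (hf : KE P k f.1 f.2) {w : ℝ × ℝ} (hw : KE P k w f.1)
    (h : ss f < sl w f.1) : ∃ w₀, Nxt P k (w₀, f.1) f ∧ sl w₀ f.1 ≤ sl w f.1 := by
  classical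
  obtain ⟨w₀, hw₀, hmin⟩ := Finset.exists_min_image
    (P.filter (fun w => KE P k w f.1 ∧ ss f < sl w f.1)) (fun w => sl w f.1)
    ⟨w, mem_filter.mpr ⟨hw.1, hw, h⟩⟩
  rw [mem_filter] at hw₀
  refine ⟨w₀, ⟨hw₀.2.1, hf, rfl, hw₀.2.2, ?_, ?_⟩, hmin w (mem_filter.mpr ⟨hw.1, hw, h⟩)⟩
  · rintro q hq ⟨h1, h2⟩
    obtain ⟨u, hu, h3, h4⟩ := altR hP hf hq h1
    have h5 := hmin u (mem_filter.mpr ⟨hu.1, hu, h3⟩)
    have h6 : ss ((w₀, f.1) : Seg) = sl w₀ f.1 := rfl
    rw [h6] at h2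
    dsimp only at h2 h4 h5
    linarith
  · rintro u hu ⟨h1, h2⟩
    have h5 := hmin u (mem_filter.mpr ⟨hu.1, hu, h1⟩)
    have h6 : ss ((w₀, f.1) : Seg) = sl w₀ f.1 := rfl
    rw [h6] at h2
    dsimp only at h2 h5
    linarith

/-- an edge to the right below `e` gives a successor of `e` -/
lemma exists_succ (hP : GP P) {e : Seg} (he : KE P k e.1 e.2) {q : ℝ × ℝ} (hq : KE P k e.2 q)
    (h : sl e.2 q < ss e) : ∃ q₀, Nxt P k e (e.2, q₀) ∧ sl e.2 q ≤ sl e.2 q₀ := by
  classical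
  obtain ⟨q₀, hq₀, hmax⟩ := Finset.exists_max_image
    (P.filter (fun q => KE P k e.2 q ∧ sl e.2 q < ss e)) (fun q => sl e.2 q)
    ⟨q, mem_filter.mpr ⟨hq.2.1, hq, h⟩⟩
  rw [mem_filter] at hq₀
  refine ⟨q₀, ⟨he, hq₀.2.1, rfl, hq₀.2.2, ?_, ?_⟩, hmax q (mem_filter.mpr ⟨hq.2.1, hq, h⟩)⟩
  · rintro r hr ⟨h1, h2⟩
    have h5 := hmax r (mem_filter.mpr ⟨hr.2.1, hr, h2⟩)
    have h6 : ss ((e.2, q₀) : Seg) = sl e.2 q₀ := rfl
    rw [h6] at h1
    linarith
  · rintro u hu ⟨h1, h2⟩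
    obtain ⟨r, hr, h3, h4⟩ := altL hP hu he h2
    have h5 := hmax r (mem_filter.mpr ⟨hr.2.1, hr, h4⟩)
    have h6 : ss ((e.2, q₀) : Seg) = sl e.2 q₀ := rfl
    rw [h6] at h1
    linarith

/-- the bridge data of a crossing pair -/
def Br (P : Finset (ℝ × ℝ)) (k : ℕ) (e f : Seg) (u v : ℝ × ℝ) : Prop :=
  u ∈ P ∧ v ∈ P ∧ u.1 < v.1 ∧ k + 1 ≤ bel P (sl u v) u ∧
  (∃ f', Fwd P k f' f ∧ KE P k f'.1 f'.2 ∧ f'.1 = u ∧ ss f' < sl u v ∧
    ∀ q, KE P k u q → sl u q < sl u v → sl u q ≤ ss f') ∧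
  (∃ e', Fwd P k e e' ∧ KE P k e'.1 e'.2 ∧ e'.2 = v ∧ sl u v < ss e' ∧
    ∀ w, KE P k w v → sl u v < sl w v → ss e' ≤ sl w v)

theorem exists_bridge (hP : GP P) {e f : Seg} (he : KE P k e.1 e.2) (hf : KE P k f.1 f.2)
    (hs : ss f < ss e) (hc : Cr e f) : ∃ u v, Br P k e f u v := by
  classical
  obtain ⟨-, x₀, hx1, hx2, hx3, hx4, hx5⟩ := hc
  set U := P.filter (fun u => ∃ f', Fwd P k f' f ∧ f'.1 = u) with hU
  set W := P.filter (fun v => ∃ e', Fwd P k e e' ∧ e'.2 = v) with hW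
  have hfU : f.1 ∈ U := mem_filter.mpr ⟨hf.1, f, Relation.ReflTransGen.refl, rfl⟩
  have heW : e.2 ∈ W := mem_filter.mpr ⟨he.2.1, e, Relation.ReflTransGen.refl, rfl⟩
  have hUx : ∀ u ∈ U, u.1 < x₀ := by
    intro u hu
    obtain ⟨-, f', h1, h2⟩ := mem_filter.mp hu
    have hf' := fwd_ke' h1 hf
    rcases fwd_or h1 with h3 | h3
    · rw [← h2, h3]; exact hx3
    · rw [← h2]; linarith [hf'.2.2.1]
  have hWx : ∀ v ∈ W, x₀ < v.1 := by
    intro v hv
    obtain ⟨-, e', h1, h2⟩ := mem_filter.mp hv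
    have he' := fwd_ke h1 he
    rcases fwd_or h1 with h3 | h3
    · rw [← h2, ← h3]; exact hx2
    · rw [← h2]; linarith [he'.2.2.1]
  obtain ⟨⟨u, v⟩, huv, hmax⟩ := Finset.exists_max_image (U ×ˢ W)
    (fun x => x.1.2 + sl x.1 x.2 * (x₀ - x.1.1)) ⟨(f.1, e.2), mem_product.mpr ⟨hfU, heW⟩⟩
  rw [mem_product] at huv
  obtain ⟨hu, hv⟩ := huv
  dsimp only at hu hv
  have huP : u ∈ P := (mem_filter.mp hu).1
  have hvP : v ∈ P := (mem_filter.mp hv).1
  have hux := hUx u hu
  have hvx := hWx v hv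
  have huv : u.1 < v.1 := hux.trans hvx
  set σ := sl u v with hσ
  have hhuv : hh σ v = hh σ u := hh_sl huv.ne
  -- all chain points are weakly below the bridge
  have hWb : ∀ w ∈ W, hh σ w ≤ hh σ u := by
    intro w hw
    by_contra hcon
    have hwx := hWx w hw
    have huw : u.1 < w.1 := hux.trans hwx
    have h1 : σ < sl u w := by
      rcases lt_trichotomy (sl u w) σ with h | h | h
      · exact absurd ((hh_lt_right huw σ).mpr h).le hcon
      · exact absurd ((hh_eq huw.ne σ).mpr h).le hcon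
      · exact h
    have h2 := hmax (u, w) (mem_product.mpr ⟨hu, hw⟩)
    dsimp only at h2
    nlinarith
  have hUb : ∀ w ∈ U, hh σ w ≤ hh σ u := by
    intro w hw
    by_contra hcon
    rw [← hhuv] at hcon
    have hwx := hUx w hw
    have hwv : w.1 < v.1 := hwx.trans hvx
    have h1 : sl v w < σ := by
      rcases lt_trichotomy (sl v w) σ with h | h | h
      · exact h
      · exact absurd ((hh_eq hwv.ne' σ).mpr h).le hcon
      · exact absurd ((hh_lt_left hwv σ).mpr h).le hcon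
    have h2 := hmax (w, v) (mem_product.mpr ⟨hw, hv⟩)
    dsimp only at h2
    have h3 : w.2 + sl w v * (x₀ - w.1) = v.2 + sl w v * (x₀ - v.1) := by
      have := hh_sl (p := w) (q := v) hwv.ne
      unfold hh at this
      linarith
    have h4 : u.2 + sl u v * (x₀ - u.1) = v.2 + sl u v * (x₀ - v.1) := by
      have := hh_sl (p := u) (q := v) huv.ne
      unfold hh at this
      linarith
    rw [h3, h4, sl_comm w v, ← hσ] at h2
    nlinarith
  -- the bridge passes above the crossing point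
  have hz : ev e x₀ - σ * x₀ < hh σ u := by
    have h2 := hmax (f.1, e.2) (mem_product.mpr ⟨hfU, heW⟩)
    dsimp only at h2
    have hfe : f.1.1 < e.2.1 := hx3.trans hx2
    have a1 : e.2.2 = ev e x₀ + ss e * (e.2.1 - x₀) := by
      have := ev_sub e e.2.1 x₀
      rw [ev_right he.2.2.1] at this
      linarith
    have a2 : f.1.2 = ev e x₀ - ss f * (x₀ - f.1.1) := by
      have := ev_sub f x₀ f.1.1
      rw [ev_left] at this
      linarith
    have a3 : sl f.1 e.2 * (e.2.1 - f.1.1) = e.2.2 - f.1.2 := by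
      unfold sl
      rw [div_mul_cancel₀]
      linarith
    have a4 : (sl f.1 e.2 - ss f) * (e.2.1 - f.1.1) = (ss e - ss f) * (e.2.1 - x₀) := by
      rw [sub_mul, a3, a1, a2]; ring
    have a5 : 0 < (ss e - ss f) * (e.2.1 - x₀) := mul_pos (by linarith) (by linarith)
    have a6 : 0 < sl f.1 e.2 - ss f := by
      by_contra hcon
      have : (sl f.1 e.2 - ss f) * (e.2.1 - f.1.1) ≤ 0 :=
        mul_nonpos_of_nonpos_of_nonneg (not_lt.mp hcon) (by linarith)
      linarith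
    have a7 : 0 < (sl f.1 e.2 - ss f) * (x₀ - f.1.1) := mul_pos a6 (by linarith)
    have a8 : ev e x₀ < f.1.2 + sl f.1 e.2 * (x₀ - f.1.1) := by rw [a2]; linarith
    unfold hh
    rw [hσ]
    linarith
  have hfs : ss f < σ := by
    by_contra hcon
    push Not at hcon
    obtain ⟨-, f', h1, h2⟩ := mem_filter.mp hu
    have hf' := fwd_ke' h1 hf
    have h3 := fwd_inc' h1 hf'.2.2.1 hcon
    rw [h2] at h3
    have h4 := ev_sub f x₀ f.1.1
    rw [ev_left, ← hx5] at h4
    have h5 : 0 ≤ (ss f - σ) * (x₀ - f.1.1) := mul_nonneg (by linarith) (by linarith)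
    unfold hh at h3 hz
    nlinarith
  have hes : σ < ss e := by
    by_contra hcon
    push Not at hcon
    obtain ⟨-, e', h1, h2⟩ := mem_filter.mp hv
    have he' := fwd_ke h1 he
    have h3 := fwd_dec' h1 he'.2.2.1 hcon
    rw [h2, hhuv] at h3
    have h4 := ev_sub e e.2.1 x₀
    rw [ev_right he.2.2.1] at h4
    have h5 : 0 ≤ (σ - ss e) * (e.2.1 - x₀) := mul_nonneg (by linarith) (by linarith)
    unfold hh at h3 hz
    nlinarith
  obtain ⟨-, f', hf'1, hf'2⟩ := mem_filter.mp hu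
  obtain ⟨-, e', he'1, he'2⟩ := mem_filter.mp hv
  have hf' := fwd_ke' hf'1 hf
  have he' := fwd_ke he'1 he
  have hf's : ss f' < σ := by
    rcases Relation.ReflTransGen.cases_head hf'1 with h | ⟨f'', h1, h2⟩
    · rw [h]; exact hfs
    · have h3 : f'.2 ∈ U := mem_filter.mpr ⟨hf'.2.1, f'', h2, h1.2.2.1⟩
      have h4 := hUb _ h3
      have h5 := hUx _ h3
      have hlt : u.1 < f'.2.1 := by rw [← hf'2]; exact hf'.2.2.1
      have h6 : ss f' = sl u f'.2 := by rw [← hf'2]; rfl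
      rw [h6]
      rcases lt_trichotomy (sl u f'.2) σ with h | h | h
      · exact h
      · exfalso
        have n1 : u ≠ f'.2 := by intro hc; rw [← hc] at hlt; exact lt_irrefl _ hlt
        have n2 : u ≠ v := by intro hc; rw [hc] at huv; exact lt_irrefl _ huv
        have n3 : f'.2 ≠ v := by intro hc; rw [hc] at h5; linarith
        exact hP.col u huP f'.2 hf'.2.1 v hvP n1 n2 n3 h
      · exfalso
        rcases lt_or_eq_of_le h4 with h4 | h4
        · have := (hh_lt_right hlt σ).mp h4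
          linarith
        · have := (hh_eq hlt.ne σ).mp h4
          linarith
  have he's : σ < ss e' := by
    rcases Relation.ReflTransGen.cases_tail he'1 with h | ⟨e'', h1, h2⟩
    · rw [h]; exact hes
    · have h3 : e'.1 ∈ W := mem_filter.mpr ⟨he'.1, e'', h1, h2.2.2.1.symm⟩
      have h4 := hWb _ h3
      have h5 := hWx _ h3
      have hlt : e'.1.1 < v.1 := by rw [← he'2]; exact he'.2.2.1
      have h6 : ss e' = sl v e'.1 := by rw [← he'2, sl_comm]; rfl
      rw [h6]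
      rw [← hhuv] at h4
      rcases lt_trichotomy (sl v e'.1) σ with h | h | h
      · exfalso
        rcases lt_or_eq_of_le h4 with h4 | h4
        · have := (hh_lt_left hlt σ).mp h4
          linarith
        · have := (hh_eq hlt.ne' σ).mp h4
          linarith
      · exfalso
        have n1 : v ≠ e'.1 := by intro hc; rw [← hc] at hlt; exact lt_irrefl _ hlt
        have n2 : v ≠ u := by intro hc; rw [hc] at huv; exact lt_irrefl _ huv
        have n3 : e'.1 ≠ u := by intro hc; rw [hc] at h5; linarith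
        apply hP.col v hvP e'.1 he'.1 u huP n1 n2 n3
        rw [h, sl_comm v u]
      · exact h
  -- no edge to the left of `u` between the slopes of `f'` and the bridge
  have hnoL : ∀ w, KE P k w u → ¬ (ss f' < sl w u ∧ sl w u < σ) := by
    rintro w hw ⟨h1, h2⟩
    rw [← hf'2] at hw h1 h2
    obtain ⟨w₀, h3, h4⟩ := exists_pred hP hf' hw h1
    have h5 : w₀ ∈ U := mem_filter.mpr ⟨h3.1.1, (w₀, f'.1), Relation.ReflTransGen.head h3 hf'1, rfl⟩
    have h6 := hUb _ h5
    have hlt : w₀.1 < u.1 := by rw [← hf'2]; exact h3.1.2.2.1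
    rcases lt_or_eq_of_le h6 with h6 | h6
    · have := (hh_lt_left hlt σ).mp h6
      rw [sl_comm, ← hf'2] at this
      linarith
    · have := (hh_eq hlt.ne' σ).mp h6
      rw [sl_comm, ← hf'2] at this
      linarith
  have hnoR : ∀ q, KE P k v q → ¬ (σ < sl v q ∧ sl v q < ss e') := by
    rintro q hq ⟨h1, h2⟩
    rw [← he'2] at hq h1 h2
    obtain ⟨q₀, h3, h4⟩ := exists_succ hP he' hq h2
    have h5 : q₀ ∈ W := mem_filter.mpr ⟨h3.2.1.2.1, (e'.2, q₀), Relation.ReflTransGen.tail he'1 h3, rfl⟩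
    have h6 := hWb _ h5
    rw [← hhuv] at h6
    have hlt : v.1 < q₀.1 := by rw [← he'2]; exact h3.2.1.2.2.1
    rcases lt_or_eq_of_le h6 with h6 | h6
    · have := (hh_lt_right hlt σ).mp h6
      rw [← he'2] at this
      linarith
    · have := (hh_eq hlt.ne σ).mp h6
      rw [← he'2] at this
      linarith
  refine ⟨u, v, huP, hvP, huv, ?_, ⟨f', hf'1, hf', hf'2, hf's, ?_⟩, ⟨e', he'1, he', he'2, he's, ?_⟩⟩
  · have h1 : KE P k u f'.2 := by rw [← hf'2]; exact hf'
    have h2 : sl u f'.2 = ss f' := by rw [← hf'2]; rfl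
    refine bel_after hP h1 hvP huv (by rw [h2]; exact hf's) ?_
    intro w hw
    rw [h2]
    exact hnoL w hw
  · intro q hq hq1
    by_contra hcon
    push Not at hcon
    have h1 : KE P k u f'.2 := by rw [← hf'2]; exact hf'
    have h2 : sl u f'.2 = ss f' := by rw [← hf'2]; rfl
    rw [← h2] at hcon
    obtain ⟨w, hw, h3, h4⟩ := altR hP h1 hq hcon
    rw [h2] at h3
    exact hnoL w hw ⟨h3, h4.trans hq1⟩
  · intro w hw hw1
    by_contra hcon
    push Not at hcon
    have h1 : KE P k e'.1 v := by rw [← he'2]; exact he'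
    have h2 : sl e'.1 v = ss e' := by rw [← he'2]; rfl
    rw [← h2] at hcon
    obtain ⟨q, hq, h3, h4⟩ := altL hP hw h1 hcon
    rw [h2] at h4
    exact hnoR q hq ⟨hw1.trans h3, h4⟩

/-- comparison of two points on a chain going down relative to the slope `σ` -/
lemma cmpF {f' f h : Seg} (hP : GP P) (h1 : Fwd P k f' f) (h2 : Fwd P k f' h)
    (hf' : KE P k f'.1 f'.2) {σ : ℝ} (hσ : ss f' < σ) {x x' : ℝ}
    (hx1 : f.1.1 < x) (hx2 : x < f.2.1) (hx3 : h.1.1 < x') (hx4 : x' < h.2.1) :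
    (x < x' → ev h x' - σ * x' < ev f x - σ * x) ∧ (x' < x → ev f x - σ * x < ev h x' - σ * x') ∧
      (x = x' → f = h) := by
  have key : ∀ {f h : Seg} {x x' : ℝ}, Fwd P k f' f → Fwd P k f' h → Fwd P k f h →
      f.1.1 < x → x < f.2.1 → h.1.1 < x' → x' < h.2.1 →
      f = h ∨ (x < x' ∧ ev h x' - σ * x' < ev f x - σ * x) := by
    intro f h x x' h1 h2 h3 hx1 hx2 hx3 hx4
    have hs1 : ss f ≤ ss f' := by
      rcases fwd_or h1 with h4 | h4
      · rw [h4]
      · exact h4.2.le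
    have hs2 : ss h ≤ ss f' := by
      rcases fwd_or h2 with h4 | h4
      · rw [h4]
      · exact h4.2.le
    rcases fwd_or h3 with h4 | h4
    · exact Or.inl h4
    · rcases fwd_dec (σ := σ) h3 (by linarith) with h5 | h5
      · exact Or.inl h5
      · right
        refine ⟨by linarith [h4.1], ?_⟩
        have hfk := fwd_ke h1 hf'
        have a1 := ev_sub f f.2.1 x
        rw [ev_right hfk.2.2.1] at a1
        have a2 := ev_sub h x' h.1.1
        rw [ev_left] at a2
        have a3 : 0 < (σ - ss f) * (f.2.1 - x) := mul_pos (by linarith) (by linarith)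
        have a4 : 0 < (σ - ss h) * (x' - h.1.1) := mul_pos (by linarith) (by linarith)
        unfold hh at h5
        nlinarith
  have hU : Relator.RightUnique (Nxt P k) := fun a b c hab hac => nxt_right_unique hP hab hac
  rcases Relation.ReflTransGen.total_of_right_unique hU h1 h2 with h3 | h3
  · rcases key h1 h2 h3 hx1 hx2 hx3 hx4 with h4 | h4
    · subst h4
      have hfk := fwd_ke h1 hf'
      have hs1 : ss f ≤ ss f' := by
        rcases fwd_or h1 with h4 | h4
        · rw [h4]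
        · exact h4.2.le
      have a := ev_sub f x' x
      refine ⟨fun h => ?_, fun h => ?_, fun _ => rfl⟩ <;> nlinarith
    · refine ⟨fun _ => h4.2, fun h => ?_, fun h => ?_⟩
      · linarith [h4.1]
      · linarith [h4.1]
  · rcases key h2 h1 h3 hx3 hx4 hx1 hx2 with h4 | h4
    · subst h4
      have hs1 : ss h ≤ ss f' := by
        rcases fwd_or h1 with h4 | h4
        · rw [h4]
        · exact h4.2.le
      have a := ev_sub h x' x
      refine ⟨fun h => ?_, fun h => ?_, fun _ => rfl⟩ <;> nlinarith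
    · refine ⟨fun h => ?_, fun _ => h4.2, fun h => ?_⟩
      · linarith [h4.1]
      · linarith [h4.1]

/-- comparison of two points on a chain going up relative to the slope `σ` -/
lemma cmpE {e' e g : Seg} (hP : GP P) (h1 : Fwd P k e e') (h2 : Fwd P k g e')
    (he' : KE P k e'.1 e'.2) {σ : ℝ} (hσ : σ < ss e') {x x' : ℝ}
    (hx1 : e.1.1 < x) (hx2 : x < e.2.1) (hx3 : g.1.1 < x') (hx4 : x' < g.2.1) :
    (x < x' → ev e x - σ * x < ev g x' - σ * x') ∧ (x' < x → ev g x' - σ * x' < ev e x - σ * x) ∧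
      (x = x' → e = g) := by
  have key : ∀ {e g : Seg} {x x' : ℝ}, Fwd P k e e' → Fwd P k g e' → Fwd P k e g →
      e.1.1 < x → x < e.2.1 → g.1.1 < x' → x' < g.2.1 →
      e = g ∨ (x < x' ∧ ev e x - σ * x < ev g x' - σ * x') := by
    intro e g x x' h1 h2 h3 hx1 hx2 hx3 hx4
    have hs1 : ss e' ≤ ss e := by
      rcases fwd_or h1 with h4 | h4
      · rw [h4]
      · exact h4.2.le
    have hs2 : ss e' ≤ ss g := by
      rcases fwd_or h2 with h4 | h4
      · rw [h4]
      · exact h4.2.le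
    rcases fwd_or h3 with h4 | h4
    · exact Or.inl h4
    · rcases fwd_inc (σ := σ) h3 (by linarith) with h5 | h5
      · exact Or.inl h5
      · right
        refine ⟨by linarith [h4.1], ?_⟩
        have hek := fwd_ke' h1 he'
        have a1 := ev_sub e e.2.1 x
        rw [ev_right hek.2.2.1] at a1
        have a2 := ev_sub g x' g.1.1
        rw [ev_left] at a2
        have a3 : 0 < (ss e - σ) * (e.2.1 - x) := mul_pos (by linarith) (by linarith)
        have a4 : 0 < (ss g - σ) * (x' - g.1.1) := mul_pos (by linarith) (by linarith)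
        unfold hh at h5
        nlinarith
  have hU : Relator.RightUnique (Function.swap (Nxt P k)) :=
    fun a b c hab hac => nxt_left_unique hP hab hac
  have h1' := Relation.reflTransGen_swap.mpr h1
  have h2' := Relation.reflTransGen_swap.mpr h2
  rcases Relation.ReflTransGen.total_of_right_unique hU h1' h2' with h3 | h3
  · have h3' := Relation.reflTransGen_swap.mp h3
    rcases key h2 h1 h3' hx3 hx4 hx1 hx2 with h4 | h4
    · subst h4
      have hs1 : ss e' ≤ ss g := by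
        rcases fwd_or h1 with h4 | h4
        · rw [h4]
        · exact h4.2.le
      have a := ev_sub g x' x
      refine ⟨fun h => ?_, fun h => ?_, fun _ => rfl⟩ <;> nlinarith
    · refine ⟨fun h => ?_, fun _ => h4.2, fun h => ?_⟩
      · linarith [h4.1]
      · linarith [h4.1]
  · have h3' := Relation.reflTransGen_swap.mp h3
    rcases key h1 h2 h3' hx1 hx2 hx3 hx4 with h4 | h4
    · subst h4
      have hs1 : ss e' ≤ ss e := by
        rcases fwd_or h1 with h4 | h4
        · rw [h4]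
        · exact h4.2.le
      have a := ev_sub e x' x
      refine ⟨fun h => ?_, fun h => ?_, fun _ => rfl⟩ <;> nlinarith
    · refine ⟨fun _ => h4.2, fun h => ?_, fun h => ?_⟩
      · linarith [h4.1]
      · linarith [h4.1]

/-- a bridge belongs to at most one crossing pair -/
theorem bridge_unique (hP : GP P) {e f g h : Seg} (hef : Cr e f) (hgh : Cr g h) {u v : ℝ × ℝ}
    (h1 : Br P k e f u v) (h2 : Br P k g h u v) : e = g ∧ f = h := by
  obtain ⟨hu, hv, huv, -, ⟨f₁, a1, a2, a3, a4, a5⟩, ⟨e₁, b1, b2, b3, b4, b5⟩⟩ := h1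
  obtain ⟨-, -, -, -, ⟨f₂, c1, c2, c3, c4, c5⟩, ⟨e₂, d1, d2, d3, d4, d5⟩⟩ := h2
  have hf12 : f₁ = f₂ := by
    refine seg_ext hP a2.1 a2.2.1 a2.2.2.1 c2.2.1 c2.2.2.1 (a3.trans c3.symm) ?_
    have x1 : KE P k u f₁.2 := by rw [← a3]; exact a2
    have x2 : KE P k u f₂.2 := by rw [← c3]; exact c2
    have y1 : sl u f₁.2 = ss f₁ := by rw [← a3]; rfl
    have y2 : sl u f₂.2 = ss f₂ := by rw [← c3]; rfl
    have z1 := c5 _ x1 (by rw [y1]; exact a4)
    have z2 := a5 _ x2 (by rw [y2]; exact c4)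
    rw [y1] at z1
    rw [y2] at z2
    exact le_antisymm z1 z2
  have he12 : e₁ = e₂ := by
    refine seg_ext' hP b2.1 b2.2.1 b2.2.2.1 d2.1 d2.2.2.1 (b3.trans d3.symm) ?_
    have x1 : KE P k e₁.1 v := by rw [← b3]; exact b2
    have x2 : KE P k e₂.1 v := by rw [← d3]; exact d2
    have y1 : sl e₁.1 v = ss e₁ := by rw [← b3]; rfl
    have y2 : sl e₂.1 v = ss e₂ := by rw [← d3]; rfl
    have z1 := d5 _ x1 (by rw [y1]; exact b4)
    have z2 := b5 _ x2 (by rw [y2]; exact d4)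
    rw [y1] at z1
    rw [y2] at z2
    exact le_antisymm z2 z1
  rw [← hf12] at c1
  rw [← he12] at d1
  obtain ⟨-, x, p1, p2, p3, p4, p5⟩ := hef
  obtain ⟨-, x', q1, q2, q3, q4, q5⟩ := hgh
  obtain ⟨r1, r2, r3⟩ := cmpF hP a1 c1 a2 a4 p3 p4 q3 q4
  obtain ⟨s1, s2, s3⟩ := cmpE hP b1 d1 b2 b4 p1 p2 q1 q2
  rcases lt_trichotomy x x' with h | h | h
  · have t1 := r1 h
    have t2 := s1 h
    rw [p5, q5] at t2
    linarith
  · exact ⟨s3 h, r3 h⟩
  · have t1 := r2 h
    have t2 := s2 h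
    rw [p5, q5] at t2
    linarith

open scoped Classical in
/-- the set of edges with exactly `k` points below -/
noncomputable def kes (P : Finset (ℝ × ℝ)) (k : ℕ) : Finset Seg :=
  (P ×ˢ P).filter (fun e => KE P k e.1 e.2)

open scoped Classical in
/-- pairs of points with more than `k` points below their line -/
noncomputable def many (P : Finset (ℝ × ℝ)) (k : ℕ) : Finset Seg :=
  (P ×ˢ P).filter (fun e => e.1.1 < e.2.1 ∧ k + 1 ≤ bel P (sl e.1 e.2) e.1)

lemma mem_kes {e : Seg} : e ∈ kes P k ↔ KE P k e.1 e.2 := by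
  classical
  unfold kes
  rw [mem_filter, mem_product]
  exact ⟨fun h => h.2, fun h => ⟨⟨h.1, h.2.1⟩, h⟩⟩

/-- **Dey's bound**: the crossings of the `k`-edges inject into the pairs of points with more than
`k` points below. -/
theorem crs_le (hP : GP P) : #(crs (kes P k)) ≤ #(many P k) := by
  classical
  have hmem : ∀ x ∈ crs (kes P k), KE P k x.1.1 x.1.2 ∧ KE P k x.2.1 x.2.2 ∧
      ss x.2 < ss x.1 ∧ Cr x.1 x.2 := by
    intro x hx
    unfold crs at hx
    rw [mem_filter, mem_product, mem_kes, mem_kes] at hx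
    exact ⟨hx.1.1, hx.1.2, hx.2.1, hx.2.2⟩
  have hex : ∀ x ∈ crs (kes P k), ∃ y : Seg, Br P k x.1 x.2 y.1 y.2 := by
    intro x hx
    obtain ⟨h1, h2, h3, h4⟩ := hmem x hx
    obtain ⟨u, v, h⟩ := exists_bridge hP h1 h2 h3 h4
    exact ⟨(u, v), h⟩
  choose! φ hφ using hex
  refine Finset.card_le_card_of_injOn φ (fun x hx => ?_) ?_
  · have h := hφ x hx
    unfold many
    rw [mem_coe, mem_filter, mem_product]
    exact ⟨⟨h.1, h.2.1⟩, h.2.2.1, h.2.2.2.1⟩
  · intro x hx y hy hxy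
    have h1 := hφ x hx
    have h2 := hφ y hy
    rw [hxy] at h1
    obtain ⟨a, b⟩ := bridge_unique hP (hmem x hx).2.2.2 (hmem y hy).2.2.2 h1 h2
    exact Prod.ext a b

end Pool.Agent.TH124.KE
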