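import Pool.Agent.TH124.KE.Planar

/-!
# Random colourings: the crossing lemma
-/

set_option autoImplicit false

namespace Pool.Agent.TH124.KE

open Finset

section color

variable {α : Type*} [DecidableEq α]

/-- the points of colour `i` -/
def cls (V : Finset α) {s : ℕ} (c : V → Fin s) (i : Fin s) : Finset α :=
  V.filter (fun x => ∃ h : x ∈ V, c ⟨x, h⟩ = i)

lemma cls_subset (V : Finset α) {s : ℕ} (c : V → Fin s) (i : Fin s) : cls V c i ⊆ V :=
  Finset.filter_subset _ _

lemma mem_cls {V : Finset α} {s : ℕ} {c : V → Fin s} {i : Fin s} (x : V) :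
    (x : α) ∈ cls V c i ↔ c x = i := by
  unfold cls
  rw [mem_filter]
  constructor
  · rintro ⟨-, h, h1⟩
    exact h1
  · intro h
    exact ⟨x.2, x.2, h⟩

/-- number of colourings in which the points of `T` have colour `i` and those of `Z` do not -/
lemma cnt (V T Z : Finset α) (hT : T ⊆ V) (hZ : Z ⊆ V) (hd : Disjoint T Z) {s : ℕ} (i : Fin s) :
    #{c : V → Fin s | T ⊆ cls V c i ∧ ∀ z ∈ Z, z ∉ cls V c i} * s ^ (#T + #Z) =
      (s - 1) ^ #Z * s ^ #V := by
  have e1 : ({c : V → Fin s | T ⊆ cls V c i ∧ ∀ z ∈ Z, z ∉ cls V c i} : Finset (V → Fin s)) =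
      Fintype.piFinset (fun x : V => if (x : α) ∈ T then {i} else
        if (x : α) ∈ Z then univ.erase i else univ) := by
    ext c
    simp only [mem_filter, mem_univ, true_and, Fintype.mem_piFinset]
    constructor
    · rintro ⟨h1, h2⟩ x
      by_cases hxT : (x : α) ∈ T
      · rw [if_pos hxT, mem_singleton]
        exact (mem_cls x).mp (h1 hxT)
      · rw [if_neg hxT]
        by_cases hxZ : (x : α) ∈ Z
        · rw [if_pos hxZ, mem_erase]
          exact ⟨fun h => h2 x hxZ ((mem_cls x).mpr h), mem_univ _⟩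
        · rw [if_neg hxZ]; exact mem_univ _
    · intro h
      constructor
      · intro x hx
        have := h ⟨x, hT hx⟩
        rw [if_pos hx, mem_singleton] at this
        exact (mem_cls ⟨x, hT hx⟩).mpr this
      · intro z hz hzc
        have := h ⟨z, hZ hz⟩
        have hzT : z ∉ T := fun h' => Finset.disjoint_left.mp hd h' hz
        rw [if_neg hzT, if_pos hz, mem_erase] at this
        exact this.1 ((mem_cls ⟨z, hZ hz⟩).mp hzc)
  have e2 : ∀ x : V, #(if (x : α) ∈ T then ({i} : Finset (Fin s)) else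
        if (x : α) ∈ Z then univ.erase i else univ) =
      (fun y : α => if y ∈ T then 1 else if y ∈ Z then s - 1 else s) x := by
    intro x
    simp only
    split_ifs
    · exact card_singleton _
    · rw [card_erase_of_mem (mem_univ _), card_univ, Fintype.card_fin]
    · rw [card_univ, Fintype.card_fin]
  rw [e1, Fintype.card_piFinset, Finset.prod_congr rfl (fun x _ => e2 x),
    Finset.prod_coe_sort V (fun y : α => if y ∈ T then 1 else if y ∈ Z then s - 1 else s)]
  have e3 : s ^ (#T + #Z) = ∏ y ∈ V, (if y ∈ T then s else if y ∈ Z then s else 1) := by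
    have h1 : ∏ y ∈ V, (if y ∈ T then s else if y ∈ Z then s else 1) =
        ∏ y ∈ V, (if y ∈ T ∪ Z then s else 1) := by
      refine Finset.prod_congr rfl fun y _ => ?_
      by_cases h1 : y ∈ T <;> by_cases h2 : y ∈ Z <;> simp [h1, h2]
    rw [h1, Finset.prod_ite_mem, Finset.inter_eq_right.mpr (Finset.union_subset hT hZ),
      Finset.prod_const, Finset.card_union_of_disjoint hd]
  have e4 : (s - 1) ^ #Z * s ^ #V = ∏ y ∈ V, ((if y ∈ Z then (s - 1) else 1) * s) := by
    rw [Finset.prod_mul_distrib, Finset.prod_ite_mem, Finset.inter_eq_right.mpr hZ,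
      Finset.prod_const, Finset.prod_const]
  rw [e3, e4, ← Finset.prod_mul_distrib]
  refine Finset.prod_congr rfl fun y _ => ?_
  by_cases h1 : y ∈ T
  · have h2 : y ∉ Z := Finset.disjoint_left.mp hd h1
    simp [h1, h2]
  · by_cases h2 : y ∈ Z
    · simp [h1, h2]
    · simp [h1, h2]

/-- double counting of monochromatic objects -/
lemma cnt_sum {β : Type*} (V : Finset α) (A : Finset β) (T : β → Finset α) (d s : ℕ)
    (hT : ∀ a ∈ A, T a ⊆ V ∧ #(T a) = d) :
    s ^ d * ∑ c : V → Fin s, ∑ i : Fin s, #{a ∈ A | T a ⊆ cls V c i} = #A * (s * s ^ #V) := by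
  have e1 : ∑ c : V → Fin s, ∑ i : Fin s, #{a ∈ A | T a ⊆ cls V c i} =
      ∑ a ∈ A, ∑ i : Fin s, #{c : V → Fin s | T a ⊆ cls V c i} := by
    simp_rw [Finset.card_filter]
    rw [Finset.sum_comm]
    rw [Finset.sum_comm (s := A)]
    refine Finset.sum_congr rfl fun i _ => ?_
    rw [Finset.sum_comm]
  rw [e1, Finset.mul_sum]
  have e2 : ∀ a ∈ A, s ^ d * ∑ i : Fin s, #{c : V → Fin s | T a ⊆ cls V c i} = s * s ^ #V := by
    intro a ha
    rw [Finset.mul_sum]
    have e3 : ∀ i : Fin s, s ^ d * #{c : V → Fin s | T a ⊆ cls V c i} = s ^ #V := by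
      intro i
      have h := cnt V (T a) ∅ (hT a ha).1 (Finset.empty_subset _) (Finset.disjoint_empty_right _) i
      rw [(hT a ha).2] at h
      simp only [card_empty, add_zero, pow_zero, one_mul, notMem_empty, IsEmpty.forall_iff,
        implies_true, and_true] at h
      rw [mul_comm]
      exact h
    rw [Finset.sum_congr rfl (fun i _ => e3 i)]
    simp
  rw [Finset.sum_congr rfl e2]
  simp

end color

lemma GP.mono {V W : Finset (ℝ × ℝ)} (hV : GP V) (h : W ⊆ V) : GP W :=
  ⟨fun p hp q hq => hV.inj p (h hp) q (h hq),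
    fun p hp q hq r hr => hV.col p (h hp) q (h hq) r (h hr)⟩

/-- the four ends of two segments -/
noncomputable def ends4 (x : Seg × Seg) : Finset (ℝ × ℝ) := {x.1.1, x.1.2, x.2.1, x.2.2}

lemma Cr.distinct {e f : Seg} (h : Cr e f) (he : e.1.1 < e.2.1) (hf : f.1.1 < f.2.1) :
    #(ends4 (e, f)) = 4 := by
  obtain ⟨hs, x, h1, h2, h3, h4, h5⟩ := h
  have a1 : e.1 ≠ e.2 := by intro hc; rw [hc] at he; exact lt_irrefl _ he
  have a2 : f.1 ≠ f.2 := by intro hc; rw [hc] at hf; exact lt_irrefl _ hf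
  have a3 : e.1 ≠ f.2 := by intro hc; rw [hc] at h1; linarith
  have a4 : e.2 ≠ f.1 := by intro hc; rw [hc] at h2; linarith
  have a5 : e.1 ≠ f.1 := by
    intro hc
    have b1 := ev_sub e x e.1.1
    have b2 := ev_sub f x f.1.1
    rw [ev_left] at b1 b2
    rw [← hc] at b2
    apply hs
    have : (ss e - ss f) * (x - e.1.1) = 0 := by linarith
    rcases mul_eq_zero.mp this with h | h <;> linarith
  have a6 : e.2 ≠ f.2 := by
    intro hc
    have b1 := ev_sub e x e.2.1
    have b2 := ev_sub f x f.2.1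
    rw [ev_right he] at b1
    rw [ev_right hf, ← hc] at b2
    apply hs
    have : (ss e - ss f) * (x - e.2.1) = 0 := by linarith
    rcases mul_eq_zero.mp this with h | h <;> linarith
  unfold ends4
  rw [card_insert_of_notMem, card_insert_of_notMem, card_insert_of_notMem, card_singleton]
  · simpa using a2
  · simp only [mem_insert, mem_singleton, not_or]
    exact ⟨a4, a6⟩
  · simp only [mem_insert, mem_singleton, not_or]
    exact ⟨a1, a5, a3⟩

/-- **The crossing lemma** for straight-line graphs in general position. -/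
theorem crossing_lemma {V : Finset (ℝ × ℝ)} (hV : GP V) {F : Finset Seg}
    (hF : ∀ e ∈ F, e.1 ∈ V ∧ e.2 ∈ V ∧ e.1.1 < e.2.1) (s : ℕ) (hs : 0 < s) :
    s ^ 2 * #F ≤ 3 * s ^ 3 * #V + #(crs F) := by
  classical
  have h2 := cnt_sum V F (fun e => {e.1, e.2}) 2 s (by
    intro e he
    have h := hF e he
    refine ⟨?_, ?_⟩
    · intro x hx
      rw [mem_insert, mem_singleton] at hx
      rcases hx with rfl | rfl
      · exact h.1
      · exact h.2.1
    · apply card_pair
      intro hc
      have := h.2.2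
      rw [hc] at this
      exact lt_irrefl _ this)
  have h1 := cnt_sum V V (fun x => {x}) 1 s (by
    intro x hx
    exact ⟨by simpa using hx, card_singleton _⟩)
  have h4 := cnt_sum V (crs F) ends4 4 s (by
    intro x hx
    unfold crs at hx
    rw [mem_filter, mem_product] at hx
    have he := hF _ hx.1.1
    have hf := hF _ hx.1.2
    refine ⟨?_, hx.2.2.distinct he.2.2 hf.2.2⟩
    intro y hy
    unfold ends4 at hy
    simp only [mem_insert, mem_singleton] at hy
    rcases hy with rfl | rfl | rfl | rfl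
    · exact he.1
    · exact he.2.1
    · exact hf.1
    · exact hf.2.1)
  have key : ∀ (c : V → Fin s) (i : Fin s), #{e ∈ F | ({e.1, e.2} : Finset (ℝ × ℝ)) ⊆ cls V c i} ≤
      3 * #{x ∈ V | ({x} : Finset (ℝ × ℝ)) ⊆ cls V c i} +
        #{x ∈ crs F | ends4 x ⊆ cls V c i} := by
    intro c i
    set W := cls V c i with hW
    have hWV : W ⊆ V := cls_subset V c i
    have e1 : #{x ∈ V | ({x} : Finset (ℝ × ℝ)) ⊆ W} = #W := by
      congr 1
      ext x
      rw [mem_filter, singleton_subset_iff]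
      exact ⟨fun h => h.2, fun h => ⟨hWV h, h⟩⟩
    rw [e1]
    have h := planar_crs (hV.mono hWV) _ (F.filter (fun e => ({e.1, e.2} : Finset (ℝ × ℝ)) ⊆ W))
      rfl (by
        intro e he
        rw [mem_filter] at he
        refine ⟨he.2 (mem_insert_self _ _), he.2 (mem_insert_of_mem (mem_singleton_self _)),
          (hF e he.1).2.2⟩)
    refine h.trans (Nat.add_le_add_left (Finset.card_le_card ?_) _)
    intro x hx
    unfold crs at hx ⊢
    rw [mem_filter, mem_product, mem_filter, mem_filter] at hx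
    rw [mem_filter, mem_filter, mem_product]
    refine ⟨⟨⟨hx.1.1.1, hx.1.2.1⟩, hx.2⟩, ?_⟩
    intro y hy
    unfold ends4 at hy
    simp only [mem_insert, mem_singleton] at hy
    rcases hy with rfl | rfl | rfl | rfl
    · exact hx.1.1.2 (mem_insert_self _ _)
    · exact hx.1.1.2 (mem_insert_of_mem (mem_singleton_self _))
    · exact hx.1.2.2 (mem_insert_self _ _)
    · exact hx.1.2.2 (mem_insert_of_mem (mem_singleton_self _))
  have hsum : ∑ c : V → Fin s, ∑ i : Fin s,
      #{e ∈ F | ({e.1, e.2} : Finset (ℝ × ℝ)) ⊆ cls V c i} ≤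
      3 * (∑ c : V → Fin s, ∑ i : Fin s, #{x ∈ V | ({x} : Finset (ℝ × ℝ)) ⊆ cls V c i}) +
      ∑ c : V → Fin s, ∑ i : Fin s, #{x ∈ crs F | ends4 x ⊆ cls V c i} := by
    rw [Finset.mul_sum, ← Finset.sum_add_distrib]
    refine Finset.sum_le_sum fun c _ => ?_
    rw [Finset.mul_sum, ← Finset.sum_add_distrib]
    exact Finset.sum_le_sum fun i _ => key c i
  set S2 := ∑ c : V → Fin s, ∑ i : Fin s,
      #{e ∈ F | ({e.1, e.2} : Finset (ℝ × ℝ)) ⊆ cls V c i}
  set S1 := ∑ c : V → Fin s, ∑ i : Fin s, #{x ∈ V | ({x} : Finset (ℝ × ℝ)) ⊆ cls V c i}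
  set S4 := ∑ c : V → Fin s, ∑ i : Fin s, #{x ∈ crs F | ends4 x ⊆ cls V c i}
  set N := s * s ^ #V with hN
  have hNpos : 0 < N := by positivity
  have h5 : s ^ 4 * S2 ≤ s ^ 4 * (3 * S1 + S4) := Nat.mul_le_mul_left _ hsum
  have h6 : s ^ 4 * S2 = (s ^ 2 * #F) * N := by
    calc s ^ 4 * S2 = s ^ 2 * (s ^ 2 * S2) := by ring
      _ = s ^ 2 * (#F * N) := by rw [h2]
      _ = _ := by ring
  have h7 : s ^ 4 * (3 * S1 + S4) = (3 * s ^ 3 * #V + #(crs F)) * N := by
    calc s ^ 4 * (3 * S1 + S4) = 3 * s ^ 3 * (s ^ 1 * S1) + s ^ 4 * S4 := by ring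
      _ = 3 * s ^ 3 * (#V * N) + #(crs F) * N := by rw [h1, h4]
      _ = _ := by ring
  rw [h6, h7] at h5
  exact Nat.le_of_mul_le_mul_right h5 hNpos

end Pool.Agent.TH124.KE
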