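import Pool.Agent.TH124.KE.Base

/-!
# Edges meeting a set in convex position
-/

set_option autoImplicit false

namespace Pool.Agent.TH124.KE

open Finset

variable {P : Finset (ℝ × ℝ)} {k : ℕ}

open scoped Classical in
/-- number of neighbours of `p` outside `S` -/
noncomputable def outd (P : Finset (ℝ × ℝ)) (k : ℕ) (S : Finset (ℝ × ℝ)) (p : ℝ × ℝ) : ℕ :=
  #{q ∈ P | q ∉ S ∧ Adj P k p q}

/-- number of edges leaving `S` -/
noncomputable def cutd (P : Finset (ℝ × ℝ)) (k : ℕ) (S : Finset (ℝ × ℝ)) : ℕ :=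
  ∑ p ∈ S, outd P k S p

open scoped Classical in
/-- degree of `p` -/
noncomputable def deg (P : Finset (ℝ × ℝ)) (k : ℕ) (p : ℝ × ℝ) : ℕ := #{q ∈ P | Adj P k p q}

/-- `S` lies weakly on one side of a non-vertical line through `p` -/
def Ext (S : Finset (ℝ × ℝ)) (p : ℝ × ℝ) : Prop :=
  ∃ τ : ℝ, (∀ q ∈ S, hh τ q ≤ hh τ p) ∨ (∀ q ∈ S, hh τ p ≤ hh τ q)

lemma cut_step (hP : GP P) {S : Finset (ℝ × ℝ)} (hS : S ⊆ P) {p : ℝ × ℝ} (hp : p ∈ S)
    (he : Ext S p) : cutd P k (S.erase p) ≤ cutd P k S + 2 := by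
  classical
  obtain ⟨τ, hτ⟩ := he
  have h1 := deg_le (k := k) hP (hS hp) τ S hτ
  have e1 : ∀ q ∈ S.erase p, outd P k (S.erase p) q =
      outd P k S q + if Adj P k q p then 1 else 0 := by
    intro q hq
    rw [mem_erase] at hq
    unfold outd
    have : ({r ∈ P | r ∉ S.erase p ∧ Adj P k q r} : Finset (ℝ × ℝ)) =
        {r ∈ P | r ∉ S ∧ Adj P k q r} ∪ {r ∈ P | r = p ∧ Adj P k q r} := by
      ext r
      simp only [mem_filter, mem_union, mem_erase, not_and]
      constructor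
      · rintro ⟨h2, h3, h4⟩
        by_cases hr : r = p
        · exact Or.inr ⟨h2, hr, h4⟩
        · exact Or.inl ⟨h2, h3 hr, h4⟩
      · rintro (⟨h2, h3, h4⟩ | ⟨h2, h3, h4⟩)
        · exact ⟨h2, fun _ => h3, h4⟩
        · exact ⟨h2, fun h => absurd h3 h, h4⟩
    rw [this, Finset.card_union_of_disjoint]
    · congr 1
      by_cases h : Adj P k q p
      · rw [if_pos h, Finset.card_eq_one]
        refine ⟨p, ?_⟩
        ext r
        simp only [mem_filter, mem_singleton]
        constructor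
        · exact fun h => h.2.1
        · rintro rfl
          exact ⟨hS hp, rfl, h⟩
      · rw [if_neg h, Finset.card_eq_zero, Finset.filter_eq_empty_iff]
        rintro r - ⟨rfl, h2⟩
        exact h h2
    · rw [Finset.disjoint_left]
      intro r h2 h3
      rw [mem_filter] at h2 h3
      exact h2.2.1 (h3.2.1 ▸ hp)
  have e2 : cutd P k (S.erase p) = ∑ q ∈ S.erase p, outd P k S q +
      ∑ q ∈ S.erase p, if Adj P k q p then 1 else 0 := by
    unfold cutd
    rw [← Finset.sum_add_distrib]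
    exact Finset.sum_congr rfl e1
  have e3 : cutd P k S = outd P k S p + ∑ q ∈ S.erase p, outd P k S q := by
    unfold cutd
    rw [Finset.add_sum_erase _ _ hp]
  have e4 : (∑ q ∈ S.erase p, if Adj P k q p then 1 else 0) ≤ #{q ∈ P | q ∈ S ∧ Adj P k p q} := by
    rw [← Finset.card_filter]
    apply Finset.card_le_card
    intro q hq
    rw [mem_filter, mem_erase] at hq
    rw [mem_filter]
    exact ⟨hS hq.1.2, hq.1.2, hq.2.symm⟩
  unfold outd at e2 e3
  unfold outd at *
  omega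

lemma cut_self : cutd P k P = 0 := by
  classical
  unfold cutd outd
  refine Finset.sum_eq_zero fun p _ => ?_
  rw [Finset.card_eq_zero, Finset.filter_eq_empty_iff]
  rintro q hq ⟨h, -⟩
  exact h hq

/-- a closed hull of `A` with few leaving edges -/
lemma exists_hull (hP : GP P) {A : Finset (ℝ × ℝ)} (hA : A ⊆ P) :
    ∃ S, A ⊆ S ∧ S ⊆ P ∧ cutd P k S ≤ 2 * #(P \ S) ∧ ∀ p ∈ S, p ∉ A → ¬ Ext S p := by
  classical
  obtain ⟨S, hS, hmin⟩ := Finset.exists_min_image
    (P.powerset.filter (fun S => A ⊆ S ∧ cutd P k S ≤ 2 * #(P \ S))) (fun S => #S)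
    ⟨P, mem_filter.mpr ⟨mem_powerset.mpr subset_rfl, hA, by rw [cut_self]; omega⟩⟩
  rw [mem_filter, mem_powerset] at hS
  obtain ⟨hSP, hAS, hcut⟩ := hS
  refine ⟨S, hAS, hSP, hcut, ?_⟩
  intro p hp hpA he
  have h1 := cut_step (k := k) hP hSP hp he
  have h2 : #(P \ S.erase p) = #(P \ S) + 1 := by
    have : P \ S.erase p = insert p (P \ S) := by
      ext q
      simp only [mem_sdiff, mem_erase, mem_insert, not_and]
      constructor
      · rintro ⟨h3, h4⟩
        by_cases hq : q = p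
        · exact Or.inl hq
        · exact Or.inr ⟨h3, h4 hq⟩
      · rintro (rfl | ⟨h3, h4⟩)
        · exact ⟨hSP hp, fun h => absurd rfl h⟩
        · exact ⟨h3, fun _ => h4⟩
    rw [this, Finset.card_insert_of_notMem]
    intro hc
    exact (mem_sdiff.mp hc).2 hp
  have h3 := hmin (S.erase p) (mem_filter.mpr ⟨mem_powerset.mpr
    ((Finset.erase_subset _ _).trans hSP),
    fun a ha => mem_erase.mpr ⟨fun h => hpA (h ▸ ha), hAS ha⟩, by omega⟩)
  have h4 := Finset.card_erase_lt_of_mem hp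
  omega

lemma hull_side {A S : Finset (ℝ × ℝ)} (hAS : A ⊆ S) (hS : ∀ p ∈ S, p ∉ A → ¬ Ext S p)
    {a : ℝ × ℝ} (ha : a ∈ A) (h : Ext A a) : Ext S a := by
  obtain ⟨τ, hτ⟩ := h
  refine ⟨τ, ?_⟩
  rcases hτ with hτ | hτ
  · left
    obtain ⟨p, hp, hmax⟩ := Finset.exists_max_image S (hh τ) ⟨a, hAS ha⟩
    by_cases hpA : p ∈ A
    · intro q hq
      exact (hmax q hq).trans (hτ p hpA)
    · exact absurd ⟨τ, Or.inl hmax⟩ (hS p hp hpA)
  · right
    obtain ⟨p, hp, hmin⟩ := Finset.exists_min_image S (hh τ) ⟨a, hAS ha⟩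
    by_cases hpA : p ∈ A
    · intro q hq
      exact (hτ p hpA).trans (hmin q hq)
    · exact absurd ⟨τ, Or.inr hmin⟩ (hS p hp hpA)

/-- the degrees of the points of a set in convex position add up to at most `4 n` -/
theorem sum_deg_le (hP : GP P) {A : Finset (ℝ × ℝ)} (hA : A ⊆ P) (hc : ∀ a ∈ A, Ext A a) :
    ∑ a ∈ A, deg P k a ≤ 4 * #P := by
  classical
  obtain ⟨S, hAS, hSP, hcut, hS⟩ := exists_hull (k := k) hP hA
  have h1 : ∀ a ∈ A, deg P k a ≤ 2 * outd P k S a + 2 := by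
    intro a ha
    obtain ⟨τ, hτ⟩ := hull_side hAS hS ha (hc a ha)
    have h2 := deg_le (k := k) hP (hA ha) τ S hτ
    have h3 : deg P k a = #{q ∈ P | q ∈ S ∧ Adj P k a q} + #{q ∈ P | q ∉ S ∧ Adj P k a q} := by
      unfold deg
      rw [← Finset.card_union_of_disjoint]
      · congr 1
        ext q
        simp only [mem_filter, mem_union]
        by_cases hq : q ∈ S <;> simp [hq]
      · rw [Finset.disjoint_left]
        intro r h2 h3
        rw [mem_filter] at h2 h3
        exact h3.2.1 h2.2.1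
    unfold outd
    omega
  have h4 : ∑ a ∈ A, deg P k a ≤ ∑ a ∈ A, (2 * outd P k S a + 2) := Finset.sum_le_sum h1
  have h5 : ∑ a ∈ A, (2 * outd P k S a + 2) = 2 * ∑ a ∈ A, outd P k S a + 2 * #A := by
    rw [Finset.sum_add_distrib, ← Finset.mul_sum]
    simp [mul_comm]
  have h6 : ∑ a ∈ A, outd P k S a ≤ cutd P k S :=
    Finset.sum_le_sum_of_subset hAS
  have h7 : #(P \ S) + #S = #P := Finset.card_sdiff_add_card_eq_card hSP
  have h8 := Finset.card_le_card hAS
  omega

end Pool.Agent.TH124.KE
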