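import Pool.Agent.TH124.KE.Total

/-!
# Pairs of points with few points above, and the crossing bound `4 k n`
-/

set_option autoImplicit false

namespace Pool.Agent.TH124.KE

open Finset

variable {P : Finset (ℝ × ℝ)} {k : ℕ}

/-- number of points strictly above the line of slope `σ` through `p` -/
noncomputable def abv (P : Finset (ℝ × ℝ)) (σ : ℝ) (p : ℝ × ℝ) : ℕ := #{r ∈ P | hh σ p < hh σ r}

lemma bel_abv (hP : GP P) {p q : ℝ × ℝ} (hp : p ∈ P) (hq : q ∈ P) (h : p.1 < q.1) :
    bel P (sl p q) p + abv P (sl p q) p + 2 = #P := by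
  classical
  have hpq : p ≠ q := by rintro rfl; exact lt_irrefl _ h
  have h1 : #{r ∈ P | ¬ hh (sl p q) r < hh (sl p q) p ∧ ¬ hh (sl p q) p < hh (sl p q) r} = 2 := by
    rw [← card_pair hpq]
    congr 1
    ext r
    simp only [mem_filter, mem_insert, mem_singleton]
    constructor
    · rintro ⟨hr, h2, h3⟩
      have h4 : hh (sl p q) r = hh (sl p q) p := le_antisymm (not_lt.mp h3) (not_lt.mp h2)
      by_contra hcon
      push Not at hcon
      have h5 := (hh_eq (hP.ne1 hp hr (Ne.symm hcon.1)) _).mp h4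
      exact hP.col p hp r hr q hq (Ne.symm hcon.1) hpq hcon.2 h5
    · rintro (rfl | rfl)
      · exact ⟨hp, lt_irrefl _, lt_irrefl _⟩
      · rw [hh_sl h.ne]
        exact ⟨hq, lt_irrefl _, lt_irrefl _⟩
  have h2 := Finset.card_filter_add_card_filter_not (s := P)
    (fun r => hh (sl p q) r < hh (sl p q) p)
  have h3 := Finset.card_filter_add_card_filter_not
    (s := P.filter (fun r => ¬ hh (sl p q) r < hh (sl p q) p))
    (fun r => hh (sl p q) p < hh (sl p q) r)
  have h4 : (P.filter (fun r => ¬ hh (sl p q) r < hh (sl p q) p)).filter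
      (fun r => hh (sl p q) p < hh (sl p q) r) = P.filter (fun r => hh (sl p q) p < hh (sl p q) r) := by
    ext r
    simp only [mem_filter]
    exact ⟨fun h => ⟨h.1.1, h.2⟩, fun h => ⟨⟨h.1, not_lt.mpr h.2.le⟩, h.2⟩⟩
  have h5 : (P.filter (fun r => ¬ hh (sl p q) r < hh (sl p q) p)).filter
      (fun r => ¬ hh (sl p q) p < hh (sl p q) r) =
      P.filter (fun r => ¬ hh (sl p q) r < hh (sl p q) p ∧ ¬ hh (sl p q) p < hh (sl p q) r) := by
    rw [Finset.filter_filter]
  rw [h4, h5, h1] at h3
  unfold bel abv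
  omega

open scoped Classical in
/-- pairs with at most `t` points above -/
noncomputable def few (P : Finset (ℝ × ℝ)) (t : ℕ) : Finset Seg :=
  (P ×ˢ P).filter (fun e => e.1.1 < e.2.1 ∧ abv P (sl e.1 e.2) e.1 ≤ t)

lemma bern (s z : ℕ) : s ^ z * (s - z) ≤ s * (s - 1) ^ z := by
  rcases Nat.eq_zero_or_pos s with rfl | hs
  · simp
  · induction z with
    | zero => simp
    | succ z ih =>
      rcases le_or_gt s (z + 1) with h | h
      · rw [Nat.sub_eq_zero_of_le h]; simp
      · obtain ⟨a, rfl⟩ : ∃ a, s = z + 1 + a + 1 := ⟨s - z - 2, by omega⟩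
        have e1 : z + 1 + a + 1 - (z + 1) = a + 1 := by omega
        have e2 : z + 1 + a + 1 - z = a + 2 := by omega
        have e3 : z + 1 + a + 1 - 1 = z + 1 + a := by omega
        rw [e1, e3]
        rw [e2, e3] at ih
        calc (z + 1 + a + 1) ^ (z + 1) * (a + 1)
            = (z + 1 + a + 1) ^ z * ((z + 1 + a + 1) * (a + 1)) := by ring
          _ ≤ (z + 1 + a + 1) ^ z * ((a + 2) * (z + 1 + a)) :=
              Nat.mul_le_mul_left _ (by nlinarith)
          _ = ((z + 1 + a + 1) ^ z * (a + 2)) * (z + 1 + a) := by ring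
          _ ≤ ((z + 1 + a + 1) * (z + 1 + a) ^ z) * (z + 1 + a) := Nat.mul_le_mul_right _ ih
          _ = (z + 1 + a + 1) * (z + 1 + a) ^ (z + 1) := by ring

/-- at most `4 (t + 1) n` pairs have at most `t` points above their line -/
theorem few_le (hP : GP P) (t : ℕ) : #(few P t) ≤ 4 * (t + 1) * #P := by
  classical
  set s := 2 * (t + 1) with hs
  set Z : Seg → Finset (ℝ × ℝ) := fun e => P.filter (fun r => hh (sl e.1 e.2) e.1 < hh (sl e.1 e.2) r)
    with hZ
  -- lower bound for each pair and colour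
  have hlow : ∀ e ∈ few P t, ∀ i : Fin s, s ^ #P ≤
      #{c : P → Fin s | ({e.1, e.2} : Finset (ℝ × ℝ)) ⊆ cls P c i ∧ ∀ z ∈ Z e, z ∉ cls P c i} *
        (2 * s ^ 2) := by
    intro e he i
    unfold few at he
    rw [mem_filter, mem_product] at he
    obtain ⟨⟨h1, h2⟩, h3, h4⟩ := he
    have hne : e.1 ≠ e.2 := by intro hc; rw [hc] at h3; exact lt_irrefl _ h3
    have hT : ({e.1, e.2} : Finset (ℝ × ℝ)) ⊆ P := by
      intro x hx
      rw [mem_insert, mem_singleton] at hx
      rcases hx with rfl | rfl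
      · exact h1
      · exact h2
    have hZP : Z e ⊆ P := Finset.filter_subset _ _
    have hd : Disjoint ({e.1, e.2} : Finset (ℝ × ℝ)) (Z e) := by
      rw [Finset.disjoint_left]
      intro x hx hxZ
      rw [hZ] at hxZ
      dsimp only at hxZ
      rw [mem_filter] at hxZ
      rw [mem_insert, mem_singleton] at hx
      rcases hx with rfl | rfl
      · exact lt_irrefl _ hxZ.2
      · rw [hh_sl h3.ne] at hxZ
        exact lt_irrefl _ hxZ.2
    have h5 := cnt P {e.1, e.2} (Z e) hT hZP hd i
    rw [card_pair hne] at h5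
    have h6 : #(Z e) ≤ t := h4
    have h7 := bern s #(Z e)
    have h8 : t + 1 ≤ s - #(Z e) := by omega
    have h9 : s ^ #(Z e) * (t + 1) ≤ (2 * (s - 1) ^ #(Z e)) * (t + 1) := by
      calc s ^ #(Z e) * (t + 1) ≤ s ^ #(Z e) * (s - #(Z e)) := Nat.mul_le_mul_left _ h8
        _ ≤ s * (s - 1) ^ #(Z e) := h7
        _ = (2 * (s - 1) ^ #(Z e)) * (t + 1) := by rw [hs]; ring
    have h10 : s ^ #(Z e) ≤ 2 * (s - 1) ^ #(Z e) := Nat.le_of_mul_le_mul_right h9 (by omega)
    have hpos : 0 < s ^ #(Z e) := by positivity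
    set N := #{c : P → Fin s | ({e.1, e.2} : Finset (ℝ × ℝ)) ⊆ cls P c i ∧
      ∀ z ∈ Z e, z ∉ cls P c i}
    have h11 : s ^ #P * s ^ #(Z e) ≤ (N * (2 * s ^ 2)) * s ^ #(Z e) := by
      calc s ^ #P * s ^ #(Z e) ≤ s ^ #P * (2 * (s - 1) ^ #(Z e)) := Nat.mul_le_mul_left _ h10
        _ = 2 * ((s - 1) ^ #(Z e) * s ^ #P) := by ring
        _ = 2 * (N * s ^ (2 + #(Z e))) := by rw [h5]
        _ = (N * (2 * s ^ 2)) * s ^ #(Z e) := by rw [pow_add]; ring
    exact Nat.le_of_mul_le_mul_right h11 hpos
  -- upper bound for each colouring and colour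
  have hup : ∀ (c : P → Fin s) (i : Fin s),
      #{e ∈ few P t | ({e.1, e.2} : Finset (ℝ × ℝ)) ⊆ cls P c i ∧ ∀ z ∈ Z e, z ∉ cls P c i} ≤
        #{x ∈ P | ({x} : Finset (ℝ × ℝ)) ⊆ cls P c i} := by
    intro c i
    refine Finset.card_le_card_of_injOn (fun e => e.1) ?_ ?_
    · intro e he
      rw [mem_coe, mem_filter] at he
      have h1 := he.2.1 (mem_insert_self _ _)
      rw [mem_coe, mem_filter, singleton_subset_iff]
      exact ⟨cls_subset _ _ _ h1, h1⟩
    · intro e he f hf hef
      rw [mem_coe, mem_filter] at he hf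
      dsimp only at hef
      obtain ⟨he0, he1, he2⟩ := he
      obtain ⟨hf0, hf1, hf2⟩ := hf
      unfold few at he0 hf0
      rw [mem_filter, mem_product] at he0 hf0
      have h1 : e.2 ∈ cls P c i := he1 (mem_insert_of_mem (mem_singleton_self _))
      have h2 : f.2 ∈ cls P c i := hf1 (mem_insert_of_mem (mem_singleton_self _))
      have h3 : f.2 ∉ Z e := fun h => he2 _ h h2
      have h4 : e.2 ∉ Z f := fun h => hf2 _ h h1
      have h5 : ss f ≤ ss e := by
        by_contra hcon
        push Not at hcon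
        apply h3
        rw [hZ]
        dsimp only
        rw [mem_filter]
        refine ⟨hf0.1.2, ?_⟩
        have hlt : e.1.1 < f.2.1 := by rw [hef]; exact hf0.2.1
        have h6 : sl e.1 f.2 = ss f := by rw [hef]; rfl
        rcases lt_trichotomy (hh (sl e.1 e.2) f.2) (hh (sl e.1 e.2) e.1) with h | h | h
        · have := (hh_lt_right hlt _).mp h
          rw [h6] at this
          exact absurd this (not_lt.mpr hcon.le)
        · have := (hh_eq hlt.ne _).mp h
          rw [h6] at this
          exact absurd this hcon.ne'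
        · exact h
      have h5' : ss e ≤ ss f := by
        by_contra hcon
        push Not at hcon
        apply h4
        rw [hZ]
        dsimp only
        rw [mem_filter]
        refine ⟨he0.1.2, ?_⟩
        have hlt : f.1.1 < e.2.1 := by rw [← hef]; exact he0.2.1
        have h6 : sl f.1 e.2 = ss e := by rw [← hef]; rfl
        rcases lt_trichotomy (hh (sl f.1 f.2) e.2) (hh (sl f.1 f.2) f.1) with h | h | h
        · have := (hh_lt_right hlt _).mp h
          rw [h6] at this
          exact absurd this (not_lt.mpr hcon.le)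
        · have := (hh_eq hlt.ne _).mp h
          rw [h6] at this
          exact absurd this hcon.ne'
        · exact h
      exact seg_ext hP he0.1.1 he0.1.2 he0.2.1 hf0.1.2 hf0.2.1 hef (le_antisymm h5' h5)
  -- double counting
  have hsum : ∑ c : P → Fin s, ∑ i : Fin s,
      #{e ∈ few P t | ({e.1, e.2} : Finset (ℝ × ℝ)) ⊆ cls P c i ∧ ∀ z ∈ Z e, z ∉ cls P c i} =
      ∑ e ∈ few P t, ∑ i : Fin s,
        #{c : P → Fin s | ({e.1, e.2} : Finset (ℝ × ℝ)) ⊆ cls P c i ∧ ∀ z ∈ Z e, z ∉ cls P c i} := by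
    simp_rw [Finset.card_filter]
    rw [Finset.sum_comm]
    rw [Finset.sum_comm (s := few P t)]
    refine Finset.sum_congr rfl fun i _ => ?_
    rw [Finset.sum_comm]
  have h1 := cnt_sum P P (fun x => {x}) 1 s (by
    intro x hx
    exact ⟨by simpa using hx, card_singleton _⟩)
  have h2 : ∑ c : P → Fin s, ∑ i : Fin s,
      #{e ∈ few P t | ({e.1, e.2} : Finset (ℝ × ℝ)) ⊆ cls P c i ∧ ∀ z ∈ Z e, z ∉ cls P c i} ≤
      ∑ c : P → Fin s, ∑ i : Fin s, #{x ∈ P | ({x} : Finset (ℝ × ℝ)) ⊆ cls P c i} :=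
    Finset.sum_le_sum fun c _ => Finset.sum_le_sum fun i _ => hup c i
  have h3 : #(few P t) * (s * s ^ #P) ≤ (∑ e ∈ few P t, ∑ i : Fin s,
      #{c : P → Fin s | ({e.1, e.2} : Finset (ℝ × ℝ)) ⊆ cls P c i ∧ ∀ z ∈ Z e, z ∉ cls P c i}) *
      (2 * s ^ 2) := by
    rw [Finset.sum_mul]
    calc #(few P t) * (s * s ^ #P) = ∑ e ∈ few P t, s * s ^ #P := by simp
      _ ≤ _ := by
        refine Finset.sum_le_sum fun e he => ?_
        rw [Finset.sum_mul]
        calc s * s ^ #P = ∑ i : Fin s, s ^ #P := by simp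
          _ ≤ _ := Finset.sum_le_sum fun i _ => hlow e he i
  rw [← hsum] at h3
  set S1 := ∑ c : P → Fin s, ∑ i : Fin s, #{x ∈ P | ({x} : Finset (ℝ × ℝ)) ⊆ cls P c i}
  have hspos : 0 < s := by omega
  have h4 : #(few P t) * (s * s ^ #P) ≤ (2 * s * #P) * (s * s ^ #P) := by
    calc #(few P t) * (s * s ^ #P) ≤ S1 * (2 * s ^ 2) := h3.trans (Nat.mul_le_mul_right _ h2)
      _ = 2 * s * (s ^ 1 * S1) := by ring
      _ = 2 * s * (#P * (s * s ^ #P)) := by rw [h1]
      _ = _ := by ring
  have h5 := Nat.le_of_mul_le_mul_right h4 (by positivity)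
  calc #(few P t) ≤ 2 * s * #P := h5
    _ = 4 * (t + 1) * #P := by rw [hs]; ring

lemma many_le (hP : GP P) (k : ℕ) : #(many P k) ≤ 4 * (#P - 2 - k) * #P := by
  classical
  rcases le_or_gt #P (k + 2) with h | h
  · have : many P k = ∅ := by
      unfold many
      rw [Finset.filter_eq_empty_iff]
      rintro e he ⟨h1, h2⟩
      rw [mem_product] at he
      have h3 := bel_abv hP he.1 he.2 h1
      omega
    rw [this]
    simp
  · have h1 : many P k ⊆ few P (#P - 3 - k) := by
      intro e he
      unfold many at he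
      unfold few
      rw [mem_filter, mem_product] at he ⊢
      refine ⟨he.1, he.2.1, ?_⟩
      have h3 := bel_abv hP he.1.1 he.1.2 he.2.1
      omega
    refine (Finset.card_le_card h1).trans ((few_le hP _).trans ?_)
    have : #P - 3 - k + 1 = #P - 2 - k := by omega
    rw [this]

/-- reflection in the horizontal axis -/
def refl2 (p : ℝ × ℝ) : ℝ × ℝ := (p.1, -p.2)

lemma refl2_inj : Function.Injective refl2 := by
  intro p q h
  unfold refl2 at h
  rw [Prod.ext_iff] at h
  exact Prod.ext h.1 (neg_injective h.2)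

lemma sl_refl (p q : ℝ × ℝ) : sl (refl2 p) (refl2 q) = - sl p q := by
  unfold sl refl2
  dsimp only
  rw [← neg_div]
  congr 1
  ring

lemma gp_refl (hP : GP P) : GP (P.image refl2) := by
  constructor
  · intro p hp q hq h
    obtain ⟨p', hp', rfl⟩ := mem_image.mp hp
    obtain ⟨q', hq', rfl⟩ := mem_image.mp hq
    rw [hP.inj p' hp' q' hq' h]
  · intro p hp q hq r hr hpq hpr hqr h
    obtain ⟨p', hp', rfl⟩ := mem_image.mp hp
    obtain ⟨q', hq', rfl⟩ := mem_image.mp hq
    obtain ⟨r', hr', rfl⟩ := mem_image.mp hr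
    rw [sl_refl, sl_refl] at h
    exact hP.col p' hp' q' hq' r' hr' (fun h => hpq (by rw [h])) (fun h => hpr (by rw [h]))
      (fun h => hqr (by rw [h])) (neg_injective h)

lemma ke_refl (hP : GP P) {p q : ℝ × ℝ} (h : KE P k p q) :
    KE (P.image refl2) (#P - 2 - k) (refl2 p) (refl2 q) := by
  classical
  obtain ⟨hp, hq, hlt, hb⟩ := h
  refine ⟨mem_image_of_mem _ hp, mem_image_of_mem _ hq, hlt, ?_⟩
  have h1 := bel_abv hP hp hq hlt
  have h2 : bel (P.image refl2) (sl (refl2 p) (refl2 q)) (refl2 p) = abv P (sl p q) p := by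
    unfold bel abv
    rw [Finset.filter_image, Finset.card_image_of_injective _ refl2_inj]
    congr 1
    ext r
    simp only [mem_filter, and_congr_right_iff]
    intro _
    rw [sl_refl]
    unfold hh refl2
    dsimp only
    constructor <;> intro h <;> linarith
  omega

/-- **Dey's bound** in the form `4 k n` -/
theorem crs_le' (hP : GP P) (k : ℕ) : #(crs (kes P k)) ≤ 4 * min k (#P - 2 - k) * #P := by
  classical
  have h1 := (crs_le (k := k) hP).trans (many_le hP k)
  have h2 : #(crs (kes P k)) ≤ 4 * k * #P := by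
    have h3 : #(crs (kes P k)) ≤ #(crs (kes (P.image refl2) (#P - 2 - k))) := by
      refine Finset.card_le_card_of_injOn (fun x => (((refl2 x.2.1, refl2 x.2.2) : Seg),
        ((refl2 x.1.1, refl2 x.1.2) : Seg))) ?_ ?_
      · intro x hx
        rw [mem_coe] at hx ⊢
        unfold crs at hx ⊢
        rw [mem_filter, mem_product, mem_kes, mem_kes] at hx
        rw [mem_filter, mem_product, mem_kes, mem_kes]
        have hss : ∀ e : Seg, ss ((refl2 e.1, refl2 e.2) : Seg) = - ss e := fun e => sl_refl _ _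
        have hev : ∀ (e : Seg) (y : ℝ), ev ((refl2 e.1, refl2 e.2) : Seg) y = - ev e y := by
          intro e y
          unfold ev
          rw [hss]
          unfold refl2
          dsimp only
          ring
        refine ⟨⟨ke_refl hP hx.1.2, ke_refl hP hx.1.1⟩, ?_, ?_⟩
        · dsimp only
          rw [hss, hss]
          linarith [hx.2.1]
        · obtain ⟨h4, y, h5, h6, h7, h8, h9⟩ := hx.2.2
          refine ⟨?_, y, h7, h8, h5, h6, ?_⟩
          · dsimp only
            rw [hss, hss]
            intro hc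
            exact h4 (neg_injective hc).symm
          · dsimp only
            rw [hev, hev, h9]
      · intro x _ y _ hxy
        simp only [Prod.mk.injEq] at hxy
        obtain ⟨⟨a1, a2⟩, a3, a4⟩ := hxy
        exact Prod.ext (Prod.ext (refl2_inj a3) (refl2_inj a4))
          (Prod.ext (refl2_inj a1) (refl2_inj a2))
    have h4 := (crs_le (k := #P - 2 - k) (gp_refl hP)).trans (many_le (gp_refl hP) _)
    rw [Finset.card_image_of_injective _ refl2_inj] at h4
    rcases le_or_gt (k + 2) #P with h | h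
    · have h5 : #P - 2 - (#P - 2 - k) = k := by omega
      rw [h5] at h4
      exact h3.trans h4
    · -- no edges at all
      have : kes P k = ∅ := by
        rw [Finset.eq_empty_iff_forall_notMem]
        intro e he
        have hk := mem_kes.mp he
        have := bel_abv hP hk.1 hk.2.1 hk.2.2.1
        have := hk.2.2.2
        omega
      rw [this]
      unfold crs
      simp
  rcases min_choice k (#P - 2 - k) with h | h
  · rw [h]; exact h2
  · rw [h]; exact h1

end Pool.Agent.TH124.KE
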