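import Pool.Agent.TH124.KE.Total
import Pool.Agent.W296.HL3

/-!
# Bisectors as `k`-edges after a shear
-/

set_option autoImplicit false

namespace Pool.Agent.TH124.KE

open Finset

/-- the shear `(x, y) ↦ (x + ε y, y)` -/
def shr (ε : ℝ) (p : ℝ × ℝ) : ℝ × ℝ := (p.1 + ε * p.2, p.2)

lemma shr_inj (ε : ℝ) : Function.Injective (shr ε) := by
  intro p q h
  unfold shr at h
  rw [Prod.ext_iff] at h
  obtain ⟨h1, h2⟩ := h
  dsimp only at h1 h2
  rw [h2] at h1
  exact Prod.ext (by linarith) h2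

lemma exists_shear (P : Finset (ℝ × ℝ)) :
    ∃ ε : ℝ, ∀ p ∈ P, ∀ q ∈ P, (shr ε p).1 = (shr ε q).1 → p = q := by
  classical
  obtain ⟨ε, hε⟩ := Infinite.exists_notMem_finset
    ((P ×ˢ P).image (fun x => -(x.1.1 - x.2.1) / (x.1.2 - x.2.2)))
  refine ⟨ε, fun p hp q hq h => ?_⟩
  by_contra hne
  unfold shr at h
  dsimp only at h
  by_cases h2 : p.2 = q.2
  · rw [h2] at h
    exact hne (Prod.ext (by linarith) h2)
  · apply hε
    rw [mem_image]
    refine ⟨(p, q), mem_product.mpr ⟨hp, hq⟩, ?_⟩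
    have h3 : p.2 - q.2 ≠ 0 := sub_ne_zero.mpr h2
    rw [div_eq_iff h3]
    linarith

lemma cr_shr (ε : ℝ) (p q x : ℝ × ℝ) :
    Pool.Agent.W296.HL.cr (shr ε p) (shr ε q) (shr ε x) = Pool.Agent.W296.HL.cr p q x := by
  unfold Pool.Agent.W296.HL.cr shr
  ring

lemma hh_cr {p q x : ℝ × ℝ} (h : p.1 < q.1) :
    (hh (sl p q) x - hh (sl p q) p) * (q.1 - p.1) = Pool.Agent.W296.HL.cr p q x := by
  have h0 : q.1 - p.1 ≠ 0 := by linarith
  unfold hh sl Pool.Agent.W296.HL.cr
  field_simp
  ring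

lemma gp_shear {P : Finset (ℝ × ℝ)} (hP : Pool.Agent.W296.HL.Gen P) {ε : ℝ}
    (hε : ∀ p ∈ P, ∀ q ∈ P, (shr ε p).1 = (shr ε q).1 → p = q) : GP (P.image (shr ε)) := by
  constructor
  · intro p hp q hq h
    obtain ⟨p', hp', rfl⟩ := mem_image.mp hp
    obtain ⟨q', hq', rfl⟩ := mem_image.mp hq
    rw [hε p' hp' q' hq' h]
  · intro p hp q hq r hr hpq hpr hqr h
    obtain ⟨p', hp', rfl⟩ := mem_image.mp hp
    obtain ⟨q', hq', rfl⟩ := mem_image.mp hq
    obtain ⟨r', hr', rfl⟩ := mem_image.mp hr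
    have n1 : p' ≠ q' := fun h => hpq (by rw [h])
    have n2 : p' ≠ r' := fun h => hpr (by rw [h])
    have n3 : q' ≠ r' := fun h => hqr (by rw [h])
    apply hP p' hp' q' hq' r' hr' n1 n2 n3
    rw [← cr_shr ε]
    have m1 : (shr ε q').1 - (shr ε p').1 ≠ 0 := fun hc => n1 (hε p' hp' q' hq' (by linarith))
    have m2 : (shr ε r').1 - (shr ε p').1 ≠ 0 := fun hc => n2 (hε p' hp' r' hr' (by linarith))
    unfold sl at h
    rw [div_eq_div_iff m1 m2] at h
    unfold Pool.Agent.W296.HL.cr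
    linarith

/-- points of a set in convex position are extreme also for a non-vertical line, after a shear -/
lemma ext_shear {A : Finset (ℝ × ℝ)} {a : ℝ × ℝ}
    (h : a ∉ convexHull ℝ ((A : Set (ℝ × ℝ)) \ {a})) (ε : ℝ) :
    Ext (A.image (shr ε)) (shr ε a) := by
  classical
  by_cases hne : ∀ q ∈ A, q = a
  · refine ⟨0, Or.inl fun q hq => ?_⟩
    obtain ⟨q', hq', rfl⟩ := mem_image.mp hq
    rw [hne q' hq']
  push Not at hne
  have hfin : ((A : Set (ℝ × ℝ)) \ {a}).Finite := A.finite_toSet.subset Set.diff_subset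
  have hcl : IsClosed (convexHull ℝ ((A : Set (ℝ × ℝ)) \ {a})) :=
    (hfin.isCompact_convexHull ℝ).isClosed
  obtain ⟨f, u, hf1, hf2⟩ := geometric_hahn_banach_closed_point
    (convex_convexHull ℝ ((A : Set (ℝ × ℝ)) \ {a})) hcl h
  set α := f (1, 0) with hα
  set β := f (0, 1) with hβ
  have hf : ∀ x : ℝ × ℝ, f x = α * x.1 + β * x.2 := by
    intro x
    have h1 : x = x.1 • ((1, 0) : ℝ × ℝ) + x.2 • ((0, 1) : ℝ × ℝ) := by
      refine Prod.ext ?_ ?_ <;> simp
    conv_lhs => rw [h1]
    rw [map_add, map_smul, map_smul, smul_eq_mul, smul_eq_mul, mul_comm, mul_comm x.2]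
  have key : ∀ q ∈ A, q ≠ a → α * q.1 + β * q.2 < α * a.1 + β * a.2 := by
    intro q hq hne
    have h1 := hf1 q (subset_convexHull ℝ _ ⟨hq, hne⟩)
    rw [hf] at h1
    rw [hf] at hf2
    linarith
  set β' := β - α * ε with hβ'
  have key' : ∀ q ∈ A, q ≠ a → α * (shr ε q).1 + β' * (shr ε q).2 <
      α * (shr ε a).1 + β' * (shr ε a).2 := by
    intro q hq hne
    have := key q hq hne
    unfold shr
    dsimp only
    rw [hβ']
    nlinarith
  rcases lt_trichotomy β' 0 with hb | hb | hb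
  · refine ⟨-α / β', Or.inr fun q hq => ?_⟩
    obtain ⟨q, hqA, rfl⟩ := mem_image.mp hq
    by_cases hqa : q = a
    · rw [hqa]
    · have h1 := key' q hqA hqa
      have hb0 : β' ≠ 0 := hb.ne
      unfold hh
      have h2 : (shr ε q).2 - -α / β' * (shr ε q).1 =
          (α * (shr ε q).1 + β' * (shr ε q).2) / β' := by field_simp; ring
      have h3 : (shr ε a).2 - -α / β' * (shr ε a).1 =
          (α * (shr ε a).1 + β' * (shr ε a).2) / β' := by field_simp; ring
      rw [h2, h3]
      exact div_le_div_of_nonpos_of_le hb.le h1.le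
  · -- a vertical supporting line
    rw [hb] at key'
    simp only [zero_mul, add_zero] at key'
    set M := ∑ q ∈ A, |sl (shr ε a) (shr ε q)| with hM
    have hMq : ∀ q ∈ A, |sl (shr ε a) (shr ε q)| ≤ M := fun q hq =>
      Finset.single_le_sum (f := fun q => |sl (shr ε a) (shr ε q)|)
        (fun q _ => abs_nonneg _) hq
    rcases lt_trichotomy α 0 with ha | ha | ha
    · -- all other points are to the right
      refine ⟨M, Or.inl fun q hq => ?_⟩
      obtain ⟨q, hqA, rfl⟩ := mem_image.mp hq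
      by_cases hqa : q = a
      · rw [hqa]
      · have h1 := key' q hqA hqa
        have h2 : (shr ε a).1 < (shr ε q).1 := by
          by_contra hcon
          push Not at hcon
          nlinarith
        rcases lt_or_eq_of_le ((le_abs_self _).trans (hMq q hqA)) with h3 | h3
        · exact ((hh_lt_right h2 M).mpr h3).le
        · exact ((hh_eq h2.ne M).mpr h3).le
    · exfalso
      rw [ha] at hf
      have hβ0 : β = 0 := by rw [hβ'] at hb; rw [ha] at hb; linarith
      rw [hβ0] at hf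
      obtain ⟨q, hq, hqa⟩ := hne
      have h1 := hf1 q (subset_convexHull ℝ _ ⟨hq, hqa⟩)
      rw [hf] at h1
      rw [hf] at hf2
      linarith
    · refine ⟨-M, Or.inl fun q hq => ?_⟩
      obtain ⟨q, hqA, rfl⟩ := mem_image.mp hq
      by_cases hqa : q = a
      · rw [hqa]
      · have h1 := key' q hqA hqa
        have h2 : (shr ε q).1 < (shr ε a).1 := by
          by_contra hcon
          push Not at hcon
          nlinarith
        have h4 := neg_abs_le (sl (shr ε a) (shr ε q))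
        have h5 := hMq q hqA
        rcases lt_or_eq_of_le (show -M ≤ sl (shr ε a) (shr ε q) by linarith) with h3 | h3
        · exact ((hh_lt_left h2 (-M)).mpr h3).le
        · exact ((hh_eq h2.ne' (-M)).mpr h3.symm).le
  · refine ⟨-α / β', Or.inl fun q hq => ?_⟩
    obtain ⟨q, hqA, rfl⟩ := mem_image.mp hq
    by_cases hqa : q = a
    · rw [hqa]
    · have h1 := key' q hqA hqa
      have hb0 : β' ≠ 0 := hb.ne'
      unfold hh
      have h2 : (shr ε q).2 - -α / β' * (shr ε q).1 =
          (α * (shr ε q).1 + β' * (shr ε q).2) / β' := by field_simp; ring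
      have h3 : (shr ε a).2 - -α / β' * (shr ε a).1 =
          (α * (shr ε a).1 + β' * (shr ε a).2) / β' := by field_simp; ring
      rw [h2, h3]
      exact div_le_div_of_nonneg_right h1.le hb.le

end Pool.Agent.TH124.KE
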