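import Pool.Agent.TH124.KE.Halv

/-!
# Bisectors when all but few points are covered by sets in convex position
-/

set_option autoImplicit false

namespace Pool.Agent.TH124.KE

open Finset

open Pool.Agent.W296.HL (GeneralPosition IsBisector Hv gen_of_gp hv_of_line)

open scoped Classical in
/-- every bisector gives an edge with `n / 2 - 1` points below -/
lemma bisector_edge {P : Finset (ℝ × ℝ)} {ε : ℝ}
    (hε : ∀ p ∈ P, ∀ q ∈ P, (shr ε p).1 = (shr ε q).1 → p = q) {L : Set (ℝ × ℝ)}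
    (hL : IsBisector P L) : ∃ p q : ℝ × ℝ, L = {x | Pool.Agent.W296.HL.cr p q x = 0} ∧
      KE (P.image (shr ε)) (#P / 2 - 1) (shr ε p) (shr ε q) := by
  have key : ∀ p ∈ P, ∀ q ∈ P, p ≠ q → p ∈ L → q ∈ L → (shr ε p).1 < (shr ε q).1 →
      ∃ p q : ℝ × ℝ, L = {x | Pool.Agent.W296.HL.cr p q x = 0} ∧
      KE (P.image (shr ε)) (#P / 2 - 1) (shr ε p) (shr ε q) := by
    intro p hp q hq hpq hpL hqL hlt
    obtain ⟨hH, hset⟩ := hv_of_line hL hpq hpL hqL
    refine ⟨p, q, hset, mem_image_of_mem _ hp, mem_image_of_mem _ hq, hlt, ?_⟩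
    rw [← hH.2.2]
    unfold bel
    rw [Finset.filter_image, Finset.card_image_of_injective _ (shr_inj ε)]
    congr 1
    ext x
    simp only [mem_filter, and_congr_right_iff]
    intro _
    rw [← cr_shr ε, ← hh_cr hlt]
    have h0 : 0 < (shr ε q).1 - (shr ε p).1 := by linarith
    constructor
    · intro h
      exact mul_neg_of_neg_of_pos (by linarith) h0
    · intro h
      by_contra hcon
      have := mul_nonneg (show 0 ≤ hh (sl (shr ε p) (shr ε q)) (shr ε x) -
        hh (sl (shr ε p) (shr ε q)) (shr ε p) by linarith) h0.le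
      linarith
  have hL' := hL
  obtain ⟨a, b, c, -, -, ⟨p, hp, q, hq, hpq, hpL, hqL⟩, -⟩ := hL'
  rcases lt_trichotomy (shr ε p).1 (shr ε q).1 with h | h | h
  · exact key p hp q hq hpq hpL hqL h
  · exact absurd (hε p hp q hq h) hpq
  · exact key q hq p hp (Ne.symm hpq) hqL hpL h

open scoped Classical in
/-- If all but `m` of the `n` points are covered by `c` sets in convex position then there are
at most `4 c n + 7 (m n) ^ (2 / 3)` bisectors. -/
theorem bisectors_bound (P : Finset (ℝ × ℝ)) (hP : GeneralPosition P) (c : ℕ)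
    (A : Fin c → Finset (ℝ × ℝ))
    (hA : ∀ i, ∀ p ∈ A i, p ∉ convexHull ℝ ((A i : Set (ℝ × ℝ)) \ {p})) :
    ({L | IsBisector P L}.ncard : ℝ) ≤
      4 * c * #P + 7 * ((#(P \ univ.biUnion A) : ℝ) * #P) ^ (2 / 3 : ℝ) := by
  obtain ⟨ε, hε⟩ := exists_shear P
  have hgp := gp_shear (gen_of_gp hP) hε
  have h1 := kes_bound (k := #P / 2 - 1) hgp (fun i => (A i).image (shr ε)) (by
    intro i a ha
    obtain ⟨a', ha', rfl⟩ := mem_image.mp ha
    exact ext_shear (hA i a' ha') ε)
  have e1 : #(P.image (shr ε)) = #P := Finset.card_image_of_injective _ (shr_inj ε)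
  have e2 : P.image (shr ε) \ univ.biUnion (fun i => (A i).image (shr ε)) =
      (P \ univ.biUnion A).image (shr ε) := by
    rw [Finset.image_sdiff _ _ (shr_inj ε)]
    congr 1
    ext x
    simp only [mem_biUnion, mem_univ, true_and, mem_image]
    constructor
    · rintro ⟨i, a, ha, rfl⟩
      exact ⟨a, ⟨i, ha⟩, rfl⟩
    · rintro ⟨a, ⟨i, ha⟩, rfl⟩
      exact ⟨i, a, ha, rfl⟩
  rw [e1, e2, Finset.card_image_of_injective _ (shr_inj ε)] at h1
  refine le_trans ?_ h1
  have hex : ∀ L ∈ {L | IsBisector P L}, ∃ e : Seg, L = {x | Pool.Agent.W296.HL.cr e.1 e.2 x = 0} ∧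
      KE (P.image (shr ε)) (#P / 2 - 1) (shr ε e.1) (shr ε e.2) := by
    intro L hL
    obtain ⟨p, q, h2, h3⟩ := bisector_edge hε hL
    exact ⟨(p, q), h2, h3⟩
  choose! φ hφ using hex
  have h4 : {L | IsBisector P L}.ncard ≤
      ((kes (P.image (shr ε)) (#P / 2 - 1) : Finset Seg) : Set Seg).ncard := by
    refine Set.ncard_le_ncard_of_injOn (fun L => (shr ε (φ L).1, shr ε (φ L).2)) ?_ ?_
      (Finset.finite_toSet _)
    · intro L hL
      rw [mem_coe, mem_kes]
      exact (hφ L hL).2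
    · intro L hL M hM hLM
      rw [Prod.ext_iff] at hLM
      have h5 := shr_inj ε hLM.1
      have h6 := shr_inj ε hLM.2
      rw [(hφ L hL).1, (hφ M hM).1, h5, h6]
  rw [Set.ncard_coe_finset] at h4
  exact_mod_cast h4

end Pool.Agent.TH124.KE
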