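import Pool.Agent.TH124.KE.Few
import Pool.Agent.Results.MP_a08d0a_co.SmoothedLevel

/-!
# A single level of a line arrangement when all but few lines are covered by envelope families
-/

set_option autoImplicit false

namespace Pool.Agent.TH124.KE

open Finset

open Pool.Agent.H189R2.Lev (ht cr ht_cr)

open Pool.Agent.Results.MP_a08d0a_co.SmoothedLevel (Simple psi crossings psi_le)

/-- the line `i` is, above some `x`, a highest line of `F` or a lowest line of `F` -/
def OnEnv {n : ℕ} (a B : Fin n → ℝ) (F : Finset (Fin n)) (i : Fin n) : Prop :=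
  ∃ x, (∀ j ∈ F, ht a B j x ≤ ht a B i x) ∨ (∀ j ∈ F, ht a B i x ≤ ht a B j x)

/-- choosing the scale: real form of the crossing bound with `4 K n` -/
lemma scale' {N M n m K X : ℕ} (h : ∀ s : ℕ, 0 < s → s ^ 2 * N ≤ M * s ^ 2 + 3 * s ^ 3 * m + X)
    (hX : X ≤ 4 * K * n) :
    (N : ℝ) ≤ M + 7 * m + 10 * ((m : ℝ) ^ 2 * K * n) ^ (1 / 3 : ℝ) := by
  have hY0 : (0 : ℝ) ≤ ((m : ℝ) ^ 2 * K * n) ^ (1 / 3 : ℝ) := by positivity
  rcases Nat.eq_zero_or_pos m with hm | hm
  · have h1 : N ≤ M := by
      by_contra hcon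
      push Not at hcon
      have h2 := h (X + 1) (by omega)
      rw [hm] at h2
      have h3 : (X + 1) ^ 2 * (M + 1) ≤ (X + 1) ^ 2 * N := Nat.mul_le_mul_left _ hcon
      nlinarith
    have h2 : (N : ℝ) ≤ M := by exact_mod_cast h1
    have h3 : (0 : ℝ) ≤ m := Nat.cast_nonneg _
    linarith
  · have hmR : (0 : ℝ) < m := by exact_mod_cast hm
    set Y : ℝ := ((m : ℝ) ^ 2 * K * n) ^ (1 / 3 : ℝ) with hY
    have hY3 : Y ^ 3 = (m : ℝ) ^ 2 * K * n := by
      rw [hY, ← Real.rpow_natCast, ← Real.rpow_mul (by positivity)]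
      norm_num
    set ρ : ℝ := Y / m with hρ
    have hρ0 : 0 ≤ ρ := div_nonneg hY0 hmR.le
    have hρY : ρ * m = Y := by rw [hρ]; field_simp
    have hρ3 : ρ ^ 3 * m = (K : ℝ) * n := by
      rw [hρ, div_pow, hY3]
      field_simp
    have hXR : (X : ℝ) ≤ 4 * K * n := by exact_mod_cast hX
    rcases le_or_gt 1 ρ with h1 | h1
    · set s := ⌈ρ⌉₊ with hs
      have hs1 : ρ ≤ s := Nat.le_ceil ρ
      have hs2 : (s : ℝ) ≤ 2 * ρ := by
        have := (Nat.ceil_lt_add_one hρ0).le
        rw [← hs] at this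
        linarith
      have hsR : (0 : ℝ) < s := lt_of_lt_of_le (by linarith) hs1
      have hspos : 0 < s := by exact_mod_cast hsR
      have h2 : (s : ℝ) ^ 2 * N ≤ M * (s : ℝ) ^ 2 + 3 * (s : ℝ) ^ 3 * m + X := by
        exact_mod_cast h s hspos
      have h3 : (X : ℝ) ≤ (s : ℝ) ^ 2 * (4 * Y) := by
        have h4 : 4 * (K : ℝ) * n = ρ ^ 2 * (4 * Y) := by
          rw [← hρY]; linear_combination -4 * hρ3
        have h5 : ρ ^ 2 ≤ (s : ℝ) ^ 2 := pow_le_pow_left₀ hρ0 hs1 2
        nlinarith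
      have h6 : 3 * (s : ℝ) ^ 3 * m ≤ (s : ℝ) ^ 2 * (6 * Y) := by
        have : (s : ℝ) * m ≤ 2 * Y := by rw [← hρY]; nlinarith
        nlinarith [sq_nonneg (s : ℝ)]
      have h8 : (s : ℝ) ^ 2 * N ≤ (s : ℝ) ^ 2 * (M + 10 * Y) := by nlinarith
      have h9 := le_of_mul_le_mul_left h8 (by positivity)
      linarith
    · have h2 : (N : ℝ) ≤ M + 3 * m + X := by
        have := h 1 one_pos
        have h3 : N ≤ M + 3 * m + X := by nlinarith
        exact_mod_cast h3
      have h3 : (K : ℝ) * n ≤ m := by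
        rw [← hρ3]
        have : ρ ^ 3 ≤ 1 := pow_le_one₀ hρ0 h1.le
        nlinarith
      nlinarith

section

variable {n : ℕ} {a B : Fin n → ℝ}

/-- the dual point of a line -/
def pt (a B : Fin n → ℝ) (l : Fin n) : ℝ × ℝ := (a l, B l)

lemma pt_inj (ha : Function.Injective a) : Function.Injective (pt a B) := fun _ _ h =>
  ha (congrArg Prod.fst h)

/-- the dual points -/
noncomputable def pts (a B : Fin n → ℝ) : Finset (ℝ × ℝ) := univ.image (pt a B)

lemma card_pts (ha : Function.Injective a) : #(pts a B) = n := by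
  unfold pts
  rw [Finset.card_image_of_injective _ (pt_inj ha), card_univ, Fintype.card_fin]

lemma hh_pt (l : Fin n) (σ : ℝ) : hh σ (pt a B l) = ht a B l (-σ) := by
  unfold hh pt ht
  ring

lemma gp_pts (ha : Function.Injective a) (hS : Simple a B) : GP (pts a B) := by
  constructor
  · intro p hp q hq h
    obtain ⟨i, -, rfl⟩ := mem_image.mp hp
    obtain ⟨j, -, rfl⟩ := mem_image.mp hq
    rw [ha h]
  · intro p hp q hq r hr hpq hpr hqr h
    obtain ⟨i, -, rfl⟩ := mem_image.mp hp
    obtain ⟨j, -, rfl⟩ := mem_image.mp hq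
    obtain ⟨l, -, rfl⟩ := mem_image.mp hr
    have n1 : i ≠ j := fun h => hpq (by rw [h])
    have n2 : i ≠ l := fun h => hpr (by rw [h])
    have n3 : j ≠ l := fun h => hqr (by rw [h])
    have m1 : (pt a B i).1 ≠ (pt a B j).1 := fun h => n1 (ha h)
    have m2 : (pt a B i).1 ≠ (pt a B l).1 := fun h => n2 (ha h)
    have h1 := hh_sl m1
    have h2 := (hh_eq m2 (sl (pt a B i) (pt a B j))).mpr h.symm
    rw [hh_pt, hh_pt] at h1 h2
    exact hS.2 i j l n1 n2 n3 ⟨_, h1.symm, h2.symm⟩

lemma cr_sl (i j : Fin n) : cr a B i j = - sl (pt a B i) (pt a B j) := by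
  unfold cr sl pt
  dsimp only
  rw [← neg_sub (a j) (a i), div_neg]

lemma crossings_le (ha : Function.Injective a) (k : ℕ) :
    (crossings a B k).ncard ≤ #(kes (pts a B) k) := by
  classical
  have hbel : ∀ i j : Fin n, bel (pts a B) (sl (pt a B i) (pt a B j)) (pt a B i) =
      {l | ht a B l (cr a B i j) < ht a B i (cr a B i j)}.ncard := by
    intro i j
    have e : {l | ht a B l (cr a B i j) < ht a B i (cr a B i j)} =
        ((univ.filter (fun l => ht a B l (cr a B i j) < ht a B i (cr a B i j)) : Finset _) :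
          Set (Fin n)) := by
      ext l; simp
    rw [e, Set.ncard_coe_finset]
    unfold bel pts
    rw [Finset.filter_image, Finset.card_image_of_injective _ (pt_inj ha)]
    congr 1
    ext l
    simp only [mem_filter, mem_univ, true_and]
    rw [hh_pt, hh_pt, cr_sl]
  have hmem : ∀ i, pt a B i ∈ pts a B := fun i => mem_image_of_mem _ (mem_univ i)
  rw [← Set.ncard_coe_finset]
  refine Set.ncard_le_ncard_of_injOn (fun q : Fin n × Fin n =>
    if a q.1 < a q.2 then ((pt a B q.1, pt a B q.2) : Seg) else (pt a B q.2, pt a B q.1)) ?_ ?_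
    (Finset.finite_toSet _)
  · rintro ⟨i, j⟩ ⟨h1, h2, h3⟩
    dsimp only at h1 h2 h3 ⊢
    rw [mem_coe, mem_kes]
    by_cases h : a i < a j
    · rw [if_pos h]
      exact ⟨hmem i, hmem j, h, by rw [hbel]; exact h3⟩
    · rw [if_neg h]
      have hlt : a j < a i := lt_of_le_of_ne (not_lt.mp h) (Ne.symm h2)
      refine ⟨hmem j, hmem i, hlt, ?_⟩
      dsimp only
      have e1 : sl (pt a B j) (pt a B i) = sl (pt a B i) (pt a B j) := sl_comm _ _
      have e2 : bel (pts a B) (sl (pt a B i) (pt a B j)) (pt a B j) =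
          bel (pts a B) (sl (pt a B i) (pt a B j)) (pt a B i) := by
        unfold bel
        rw [hh_sl (p := pt a B i) (q := pt a B j) (ne_of_gt hlt)]
      rw [e1, e2, hbel]
      exact h3
  · rintro ⟨i, j⟩ ⟨h1, h2, -⟩ ⟨i', j'⟩ ⟨h1', h2', -⟩ heq
    dsimp only at h1 h2 h1' h2' heq
    have hinj := pt_inj (B := B) ha
    by_cases h : a i < a j
    · rw [if_pos h] at heq
      by_cases h' : a i' < a j'
      · rw [if_pos h', Prod.ext_iff] at heq
        exact Prod.ext (hinj heq.1) (hinj heq.2)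
      · rw [if_neg h', Prod.ext_iff] at heq
        have e1 := hinj heq.1
        have e2 := hinj heq.2
        rw [e1, e2] at h1
        exact absurd h1 (not_lt.mpr h1'.le)
    · rw [if_neg h] at heq
      by_cases h' : a i' < a j'
      · rw [if_pos h', Prod.ext_iff] at heq
        have e1 := hinj heq.1
        have e2 := hinj heq.2
        rw [e1, e2] at h1
        exact absurd h1 (not_lt.mpr h1'.le)
      · rw [if_neg h', Prod.ext_iff] at heq
        exact Prod.ext (hinj heq.2) (hinj heq.1)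

/-- the number of crossings with exactly `j` lines below -/
lemma kes_pts_le (ha : Function.Injective a) (hS : Simple a B) {c : ℕ} (F : Fin c → Finset (Fin n))
    (hF : ∀ t, ∀ i ∈ F t, OnEnv a B (F t) i) (j K : ℕ) (hK : min j (n - 2 - j) ≤ K) :
    (#(kes (pts a B) j) : ℝ) ≤ 4 * c * n + 7 * #(univ \ univ.biUnion F) +
      10 * ((#(univ \ univ.biUnion F) : ℝ) ^ 2 * K * n) ^ (1 / 3 : ℝ) := by
  classical
  have hgp := gp_pts ha hS
  have hn := card_pts (B := B) ha
  have h1 := fun s hs => total (k := j) hgp (fun t => (F t).image (pt a B)) (by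
    intro t p hp
    obtain ⟨i, hi, rfl⟩ := mem_image.mp hp
    obtain ⟨x, hx⟩ := hF t i hi
    refine ⟨-x, ?_⟩
    rcases hx with hx | hx
    · left
      intro q hq
      obtain ⟨l, hl, rfl⟩ := mem_image.mp hq
      rw [hh_pt, hh_pt, neg_neg]
      exact hx l hl
    · right
      intro q hq
      obtain ⟨l, hl, rfl⟩ := mem_image.mp hq
      rw [hh_pt, hh_pt, neg_neg]
      exact hx l hl) s hs
  have e2 : #(pts a B \ univ.biUnion (fun t => (F t).image (pt a B))) =
      #(univ \ univ.biUnion F) := by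
    have : pts a B \ univ.biUnion (fun t => (F t).image (pt a B)) =
        (univ \ univ.biUnion F).image (pt a B) := by
      unfold pts
      rw [Finset.image_sdiff _ _ (pt_inj ha)]
      congr 1
      ext x
      simp only [mem_biUnion, mem_univ, true_and, mem_image]
      constructor
      · rintro ⟨i, a, ha, rfl⟩
        exact ⟨a, ⟨i, ha⟩, rfl⟩
      · rintro ⟨a, ⟨i, ha⟩, rfl⟩
        exact ⟨i, a, ha, rfl⟩
    rw [this, Finset.card_image_of_injective _ (pt_inj ha)]
  have h2 := crs_le' hgp j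
  rw [hn] at h2
  have h3 := scale' (N := #(kes (pts a B) j)) (M := 4 * c * n) (n := n)
    (m := #(univ \ univ.biUnion F)) (K := K) (X := #(crs (kes (pts a B) j))) (fun s hs => by
      have := h1 s hs
      rw [hn, e2] at this
      exact this) (h2.trans (Nat.mul_le_mul_right _ (Nat.mul_le_mul_left _ hK)))
  push_cast at h3
  exact h3

/-- **Levels**: all but `m` lines covered by `c` envelope families -/
theorem level_bound (ha : Function.Injective a) (hS : Simple a B) {k : ℕ} (hk : k < n) {c : ℕ}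
    (F : Fin c → Finset (Fin n)) (hF : ∀ t, ∀ i ∈ F t, OnEnv a B (F t) i) :
    ∃ N : ℕ, psi a B k ≤ N ∧ (N : ℝ) ≤ 8 * c * n + 14 * #(univ \ univ.biUnion F) +
      20 * ((#(univ \ univ.biUnion F) : ℝ) ^ 2 * (min k (n - k) : ℕ) * n) ^ (1 / 3 : ℝ) := by
  classical
  refine ⟨#(kes (pts a B) k) + (if k = 0 then 0 else #(kes (pts a B) (k - 1))), ?_, ?_⟩
  · refine (psi_le hS hk).trans ?_
    have h1 := crossings_le (B := B) ha k
    have h2 := crossings_le (B := B) ha (k - 1)
    by_cases h0 : k = 0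
    · simp only [h0, if_true, Nat.cast_zero, add_zero] at *
      exact_mod_cast h1
    · simp only [h0, if_false] at *
      exact_mod_cast Nat.add_le_add h1 h2
  · have h1 := kes_pts_le ha hS F hF k (min k (n - k)) (by omega)
    have hY : (0 : ℝ) ≤ ((#(univ \ univ.biUnion F) : ℝ) ^ 2 * (min k (n - k) : ℕ) * n) ^
      (1 / 3 : ℝ) := by positivity
    have hc0 : (0 : ℝ) ≤ 4 * c * n := by positivity
    have hm0 : (0 : ℝ) ≤ #(univ \ univ.biUnion F) := by positivity
    by_cases h0 : k = 0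
    · rw [if_pos h0, Nat.add_zero]
      linarith
    · rw [if_neg h0]
      have h2 := kes_pts_le ha hS F hF (k - 1) (min k (n - k)) (by omega)
      rw [Nat.cast_add]
      linarith

end

end Pool.Agent.TH124.KE
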