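import Pool.Agent.TH124.KE.Base

/-!
# Straight-line graphs without crossings have at most `3 n` edges

A sweep argument: an edge which is not the topmost edge leaving its left end is charged to the
leftmost vertex between it and the next edge.
-/

set_option autoImplicit false

namespace Pool.Agent.TH124.KE

open Finset

/-- segments as pairs of points -/
abbrev Seg : Type := (ℝ × ℝ) × (ℝ × ℝ)

/-- slope of a segment -/
noncomputable def ss (e : Seg) : ℝ := sl e.1 e.2

/-- value at `x` of the line through the segment `e` -/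
noncomputable def ev (e : Seg) (x : ℝ) : ℝ := e.1.2 + ss e * (x - e.1.1)

/-- two segments cross in interior points -/
def Cr (e f : Seg) : Prop :=
  ss e ≠ ss f ∧ ∃ x, e.1.1 < x ∧ x < e.2.1 ∧ f.1.1 < x ∧ x < f.2.1 ∧ ev e x = ev f x

lemma Cr.symm {e f : Seg} (h : Cr e f) : Cr f e := by
  obtain ⟨h1, x, h2, h3, h4, h5, h6⟩ := h
  exact ⟨h1.symm, x, h4, h5, h2, h3, h6.symm⟩

lemma ev_left (e : Seg) : ev e e.1.1 = e.1.2 := by simp [ev]

lemma ev_right {e : Seg} (h : e.1.1 < e.2.1) : ev e e.2.1 = e.2.2 := by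
  unfold ev ss sl
  have : e.2.1 - e.1.1 ≠ 0 := by linarith
  field_simp
  ring

lemma ev_sub (e : Seg) (x y : ℝ) : ev e x - ev e y = ss e * (x - y) := by unfold ev; ring

/-- order along segments that do not cross -/
lemma ord {g e : Seg} (h : ¬ Cr g e) {x₁ x₂ : ℝ} (hx : x₁ < x₂) (h1 : g.1.1 ≤ x₁)
    (h2 : e.1.1 ≤ x₁) (h3 : x₂ ≤ g.2.1) (h4 : x₂ ≤ e.2.1) (h5 : ev e x₂ < ev g x₂) :
    ev e x₁ ≤ ev g x₁ := by
  by_contra hcon
  push Not at hcon
  apply h
  have h6 := ev_sub g x₂ x₁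
  have h7 := ev_sub e x₂ x₁
  have h8 : 0 < (ss g - ss e) * (x₂ - x₁) := by nlinarith
  have h9 : 0 < ss g - ss e := by
    by_contra hc
    have : (ss g - ss e) * (x₂ - x₁) ≤ 0 :=
      mul_nonpos_of_nonpos_of_nonneg (not_lt.mp hc) (by linarith)
    linarith
  refine ⟨fun hc => by rw [hc] at h9; linarith, x₁ + (ev e x₁ - ev g x₁) / (ss g - ss e), ?_⟩
  have h10 : 0 < (ev e x₁ - ev g x₁) / (ss g - ss e) := div_pos (by linarith) h9
  have h11 : (ev e x₁ - ev g x₁) / (ss g - ss e) < x₂ - x₁ := by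
    rw [div_lt_iff₀ h9]; nlinarith
  refine ⟨by linarith, by linarith, by linarith, by linarith, ?_⟩
  set y := x₁ + (ev e x₁ - ev g x₁) / (ss g - ss e) with hy
  have h12 := ev_sub g y x₁
  have h13 := ev_sub e y x₁
  have h14 : (ss g - ss e) * (y - x₁) = ev e x₁ - ev g x₁ := by
    rw [hy]; field_simp; ring
  nlinarith

/-- a third point on a segment's line -/
lemma not_on_line {V : Finset (ℝ × ℝ)} (hV : GP V) {e : Seg} (h1 : e.1 ∈ V) (h2 : e.2 ∈ V)
    (h12 : e.1.1 < e.2.1) {w : ℝ × ℝ} (hw : w ∈ V) (hw1 : w ≠ e.1) (hw2 : w ≠ e.2) :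
    ev e w.1 ≠ w.2 := by
  intro h
  have h3 : e.1 ≠ e.2 := by intro hc; rw [hc] at h12; exact lt_irrefl _ h12
  apply hV.col e.1 h1 e.2 h2 w hw h3 (Ne.symm hw1) (Ne.symm hw2)
  have h4 := hV.ne1 hw h1 hw1
  have h5 : w.1 - e.1.1 ≠ 0 := sub_ne_zero.mpr h4
  have h6 : sl e.1 w = ss e := by
    unfold sl
    rw [← h]
    unfold ev
    field_simp
    ring
  rw [h6]; rfl

lemma seg_ext {V : Finset (ℝ × ℝ)} (hV : GP V) {e f : Seg} (he1 : e.1 ∈ V) (he2 : e.2 ∈ V)
    (he : e.1.1 < e.2.1) (hf2 : f.2 ∈ V) (hf : f.1.1 < f.2.1)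
    (h1 : e.1 = f.1) (h2 : ss e = ss f) : e = f := by
  refine Prod.ext h1 ?_
  by_contra hne
  have h3 : e.1 ≠ e.2 := by intro hc; rw [hc] at he; exact lt_irrefl _ he
  have h4 : e.1 ≠ f.2 := by intro hc; rw [h1] at hc; rw [← hc] at hf; exact lt_irrefl _ hf
  apply hV.col e.1 he1 e.2 he2 f.2 hf2 h3 h4 hne
  have : ss f = sl f.1 f.2 := rfl
  rw [← h1] at this
  rw [← this, ← h2]; rfl

section

variable {V : Finset (ℝ × ℝ)} {F : Finset Seg}

/-- `f` is the next edge above `e` at the left end of `e` -/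
def Nx (F : Finset Seg) (e f : Seg) : Prop :=
  f ∈ F ∧ f.1 = e.1 ∧ ss e < ss f ∧ ∀ g ∈ F, g.1 = e.1 → ss e < ss g → ss f ≤ ss g

/-- the vertices between `e` and `f` -/
def Rg (V : Finset (ℝ × ℝ)) (e f : Seg) (w : ℝ × ℝ) : Prop :=
  w ∈ V ∧ e.1.1 < w.1 ∧ w.1 ≤ e.2.1 ∧ w.1 ≤ f.2.1 ∧ ev e w.1 ≤ w.2 ∧ w.2 ≤ ev f w.1

/-- `w` is a leftmost vertex between `e` and the next edge -/
def Ch (V : Finset (ℝ × ℝ)) (F : Finset Seg) (e : Seg) (w : ℝ × ℝ) : Prop :=
  ∃ f, Nx F e f ∧ Rg V e f w ∧ ∀ w', Rg V e f w' → w.1 ≤ w'.1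

lemma ev_next {e f : Seg} (h1 : f.1 = e.1) (h2 : ss e < ss f) {x : ℝ} (hx : e.1.1 < x) :
    ev e x < ev f x := by
  unfold ev
  rw [h1]
  nlinarith

lemma exists_ch (hF : ∀ e ∈ F, e.1 ∈ V ∧ e.2 ∈ V ∧ e.1.1 < e.2.1) {e : Seg} (he : e ∈ F)
    (hnt : ¬ ∀ f ∈ F, f.1 = e.1 → ss f ≤ ss e) : ∃ w, Ch V F e w := by
  classical
  push Not at hnt
  obtain ⟨f₀, hf₀, h1, h2⟩ := hnt
  obtain ⟨f, hf, hmin⟩ := Finset.exists_min_image (F.filter (fun f => f.1 = e.1 ∧ ss e < ss f)) ss
    ⟨f₀, mem_filter.mpr ⟨hf₀, h1, h2⟩⟩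
  rw [mem_filter] at hf
  have hN : Nx F e f := ⟨hf.1, hf.2.1, hf.2.2,
    fun g hg hg1 hg2 => hmin g (mem_filter.mpr ⟨hg, hg1, hg2⟩)⟩
  have heV := hF e he
  have hfV := hF f hf.1
  have hne : (V.filter (fun w => Rg V e f w)).Nonempty := by
    rcases le_total e.2.1 f.2.1 with h | h
    · refine ⟨e.2, mem_filter.mpr ⟨heV.2.1, heV.2.1, heV.2.2, le_rfl, h, ?_, ?_⟩⟩
      · rw [ev_right heV.2.2]
      · rw [← ev_right heV.2.2]
        exact (ev_next hf.2.1 hf.2.2 heV.2.2).le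
    · have h3 : e.1.1 < f.2.1 := by rw [← hf.2.1]; exact hfV.2.2
      refine ⟨f.2, mem_filter.mpr ⟨hfV.2.1, hfV.2.1, h3, h, le_rfl, ?_, ?_⟩⟩
      · rw [← ev_right hfV.2.2]
        exact (ev_next hf.2.1 hf.2.2 h3).le
      · rw [ev_right hfV.2.2]
  obtain ⟨w, hw, hwmin⟩ := Finset.exists_min_image _ (fun w : ℝ × ℝ => w.1) hne
  rw [mem_filter] at hw
  exact ⟨w, f, hN, hw.2, fun w' hw' => hwmin w' (mem_filter.mpr ⟨hw'.1, hw'⟩)⟩

/-- the edge directly below `w` -/
lemma ch_below (hV : GP V) (hF : ∀ e ∈ F, e.1 ∈ V ∧ e.2 ∈ V ∧ e.1.1 < e.2.1)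
    (hX : ∀ e ∈ F, ∀ f ∈ F, ¬ Cr e f) {e g : Seg} (he : e ∈ F) (hg : g ∈ F) {w : ℝ × ℝ}
    (hc : Ch V F e w) (hg1 : g.1.1 < w.1) (hg2 : w.1 ≤ g.2.1)
    (h1 : ev e w.1 < ev g w.1) (h2 : ev g w.1 < w.2) : False := by
  obtain ⟨f, ⟨hf, hfe, hs, hnext⟩, ⟨hwV, hw1, hw2, hw3, hw4, hw5⟩, hmin⟩ := hc
  have hgf : ev g w.1 < ev f w.1 := lt_of_lt_of_le h2 hw5
  have hf1 : f.1.1 = e.1.1 := by rw [hfe]
  rcases lt_trichotomy g.1.1 e.1.1 with h | h | h
  · have h3 := ord (hX g hg e he) hw1 h.le le_rfl hg2 hw2 h1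
    have h4 := ord (hX f hf g hg) hw1 hf1.le h.le hw3 hg2 hgf
    have h5 : ev f e.1.1 = e.1.2 := by rw [← hf1, ev_left, hfe]
    rw [h5] at h4
    rw [ev_left] at h3
    have h6 : ev g e.1.1 = e.1.2 := le_antisymm h4 h3
    refine not_on_line hV (hF g hg).1 (hF g hg).2.1 (hF g hg).2.2 (hF e he).1 ?_ ?_ h6
    · intro hc; rw [hc] at h; exact lt_irrefl _ h
    · intro hc; rw [← hc] at hg2; linarith
  · have hge : g.1 = e.1 := hV.inj _ (hF g hg).1 _ (hF e he).1 h
    have h3 : ss e < ss g := by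
      by_contra hc
      have : ev g w.1 ≤ ev e w.1 := by
        unfold ev; rw [hge]; nlinarith
      linarith
    have h4 := hnext g hg hge h3
    have : ev f w.1 ≤ ev g w.1 := by
      unfold ev; rw [hge, hfe]; nlinarith
    linarith
  · have h3 := ord (hX g hg e he) hg1 le_rfl h.le hg2 hw2 h1
    have h4 := ord (hX f hf g hg) hg1 (by rw [hf1]; exact h.le) le_rfl hw3 hg2 hgf
    rw [ev_left] at h3 h4
    have := hmin g.1 ⟨(hF g hg).1, h, by linarith, by linarith, h3, h4⟩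
    linarith

/-- the top edge ending at `w` -/
lemma ch_end (hV : GP V) (hF : ∀ e ∈ F, e.1 ∈ V ∧ e.2 ∈ V ∧ e.1.1 < e.2.1)
    (hX : ∀ e ∈ F, ∀ f ∈ F, ¬ Cr e f) {e g : Seg} (he : e ∈ F) (hg : g ∈ F)
    (hc : Ch V F e e.2) (hg2 : g.2 = e.2) (h1 : ss g < ss e) : False := by
  obtain ⟨f, ⟨hf, hfe, hs, hnext⟩, ⟨hwV, hw1, hw2, hw3, hw4, hw5⟩, hmin⟩ := hc
  have hf1 : f.1.1 = e.1.1 := by rw [hfe]
  have hgx : g.1.1 < e.2.1 := by rw [← hg2]; exact (hF g hg).2.2
  have hgr : ev g e.2.1 = e.2.2 := by rw [← hg2]; exact ev_right (hF g hg).2.2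
  have her : ev e e.2.1 = e.2.2 := ev_right (hF e he).2.2
  have hgf : ev g e.2.1 < ev f e.2.1 := by
    rw [hgr, ← her]; exact ev_next hfe hs hw1
  have hlt : ∀ x, x < e.2.1 → ev e x < ev g x := by
    intro x hx
    have h2 := ev_sub e e.2.1 x
    have h3 := ev_sub g e.2.1 x
    nlinarith
  rcases lt_trichotomy g.1.1 e.1.1 with h | h | h
  · have h4 := ord (hX f hf g hg) hw1 hf1.le h.le hw3 (by rw [hg2]) hgf
    have h5 : ev f e.1.1 = e.1.2 := by rw [← hf1, ev_left, hfe]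
    rw [h5] at h4
    have h6 := hlt e.1.1 hw1
    rw [ev_left] at h6
    linarith
  · have hge : g.1 = e.1 := hV.inj _ (hF g hg).1 _ (hF e he).1 h
    have : g = e := Prod.ext hge hg2
    rw [this] at h1
    exact lt_irrefl _ h1
  · have h4 := ord (hX f hf g hg) hgx (by rw [hf1]; exact h.le) le_rfl hw3 (by rw [hg2]) hgf
    have h3 := hlt g.1.1 hgx
    rw [ev_left] at h3 h4
    have := hmin g.1 ⟨(hF g hg).1, h, by linarith, by linarith, h3.le, h4⟩
    linarith

/-- A straight-line graph without crossings has at most three times as many edges as vertices. -/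
theorem planar (hV : GP V) (hF : ∀ e ∈ F, e.1 ∈ V ∧ e.2 ∈ V ∧ e.1.1 < e.2.1)
    (hX : ∀ e ∈ F, ∀ f ∈ F, ¬ Cr e f) : #F ≤ 3 * #V := by
  classical
  set T := F.filter (fun e => ∀ f ∈ F, f.1 = e.1 → ss f ≤ ss e) with hT
  set N := F.filter (fun e => ¬ ∀ f ∈ F, f.1 = e.1 → ss f ≤ ss e) with hN
  have hch : ∀ e ∈ N, ∃ w, Ch V F e w := fun e he =>
    exists_ch hF (mem_filter.mp he).1 (mem_filter.mp he).2
  choose! w hw using hch
  have h0 : #T + #N = #F := Finset.card_filter_add_card_filter_not _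
  have h1 : #T ≤ #V := by
    refine Finset.card_le_card_of_injOn (fun e => e.1) (fun e he => ?_) ?_
    · exact (hF e (mem_filter.mp he).1).1
    · intro e he f hf hef
      rw [mem_coe, hT, mem_filter] at he hf
      have h2 := he.2 f hf.1 hef.symm
      have h3 := hf.2 e he.1 hef
      exact seg_ext hV (hF e he.1).1 (hF e he.1).2.1 (hF e he.1).2.2 (hF f hf.1).2.1
        (hF f hf.1).2.2 hef (le_antisymm h3 h2)
  have hwV : ∀ e ∈ N, w e ∈ V := by
    intro e he
    obtain ⟨f, -, h2, -⟩ := hw e he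
    exact h2.1
  have h2 : #(N.filter (fun e => w e ≠ e.2)) ≤ #V := by
    refine Finset.card_le_card_of_injOn w (fun e he => hwV e (mem_filter.mp he).1) ?_
    intro e he g hg hwe
    rw [mem_coe, mem_filter] at he hg
    have heF : e ∈ F := (mem_filter.mp he.1).1
    have hgF : g ∈ F := (mem_filter.mp hg.1).1
    by_contra hne
    -- strictness
    have key : ∀ e ∈ N, w e ≠ e.2 → e.1.1 < (w e).1 ∧ (w e).1 < e.2.1 ∧ ev e (w e).1 < (w e).2 := by
      intro e he hne
      have heF : e ∈ F := (mem_filter.mp he).1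
      obtain ⟨f, -, ⟨h3, h4, h5, h6, h7, h8⟩, -⟩ := hw e he
      have h9 : w e ≠ e.1 := by intro hc; rw [hc] at h4; exact lt_irrefl _ h4
      refine ⟨h4, lt_of_le_of_ne h5 (hV.ne1 h3 (hF e heF).2.1 hne), lt_of_le_of_ne h7 ?_⟩
      exact not_on_line hV (hF e heF).1 (hF e heF).2.1 (hF e heF).2.2 h3 h9 hne
    obtain ⟨ke1, ke2, ke3⟩ := key e he.1 he.2
    obtain ⟨kg1, kg2, kg3⟩ := key g hg.1 hg.2
    have hce := hw e he.1
    have hcg := hw g hg.1
    rw [← hwe] at kg1 kg2 kg3 hcg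
    rcases lt_trichotomy (ev e (w e).1) (ev g (w e).1) with h | h | h
    · exact ch_below hV hF hX heF hgF hce kg1 kg2.le h kg3
    · by_cases hs : ss e = ss g
      · -- the same line
        have h5 : ev g e.1.1 = e.1.2 := by
          have a1 := ev_sub e (w e).1 e.1.1
          have a2 := ev_sub g (w e).1 e.1.1
          rw [ev_left] at a1
          rw [hs] at a1
          linarith
        have h6 : ev g e.2.1 = e.2.2 := by
          have a1 := ev_sub e (w e).1 e.2.1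
          have a2 := ev_sub g (w e).1 e.2.1
          rw [ev_right (hF e heF).2.2] at a1
          rw [hs] at a1
          linarith
        have h7 : e.1 = g.1 ∨ e.1 = g.2 := by
          by_contra hc
          push Not at hc
          exact not_on_line hV (hF g hgF).1 (hF g hgF).2.1 (hF g hgF).2.2 (hF e heF).1 hc.1 hc.2 h5
        have h8 : e.2 = g.1 ∨ e.2 = g.2 := by
          by_contra hc
          push Not at hc
          exact not_on_line hV (hF g hgF).1 (hF g hgF).2.1 (hF g hgF).2.2 (hF e heF).2.1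
            hc.1 hc.2 h6
        rcases h7 with h7 | h7
        · rcases h8 with h8 | h8
          · rw [h8, ← h7] at ke2; linarith
          · exact hne (Prod.ext h7 h8)
        · rw [h7] at ke1; linarith
      · exact hX e heF g hgF ⟨hs, (w e).1, ke1, ke2, kg1, kg2, h⟩
    · exact ch_below hV hF hX hgF heF hcg ke1 ke2.le h ke3
  have h3 : #(N.filter (fun e => ¬ w e ≠ e.2)) ≤ #V := by
    refine Finset.card_le_card_of_injOn (fun e => e.2) (fun e he => ?_) ?_
    · exact (hF e (mem_filter.mp (mem_filter.mp he).1).1).2.1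
    · intro e he g hg hwe
      rw [mem_coe, mem_filter] at he hg
      have heF : e ∈ F := (mem_filter.mp he.1).1
      have hgF : g ∈ F := (mem_filter.mp hg.1).1
      have hce := hw e he.1
      have hcg := hw g hg.1
      have e1 : w e = e.2 := not_not.mp he.2
      have e2 : w g = g.2 := not_not.mp hg.2
      rw [e1] at hce
      rw [e2] at hcg
      have hwe' : e.2 = g.2 := hwe
      rcases lt_trichotomy (ss e) (ss g) with h | h | h
      · exact (ch_end hV hF hX hgF heF hcg hwe' h).elim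
      · have h5 : ev g e.1.1 = e.1.2 := by
          have a1 := ev_sub e e.2.1 e.1.1
          have a2 := ev_sub g e.2.1 e.1.1
          rw [ev_left, ev_right (hF e heF).2.2] at a1
          rw [hwe', ev_right (hF g hgF).2.2] at a2
          rw [h, hwe'] at a1
          linarith
        have h6 : e.1 = g.1 := by
          by_contra hc
          refine not_on_line hV (hF g hgF).1 (hF g hgF).2.1 (hF g hgF).2.2 (hF e heF).1 hc ?_ h5
          intro hc2
          have := (hF e heF).2.2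
          rw [hc2, hwe'] at this
          exact lt_irrefl _ this
        exact Prod.ext h6 hwe'
      · exact (ch_end hV hF hX heF hgF hce hwe'.symm h).elim
  have h4 : #(N.filter (fun e => w e ≠ e.2)) + #(N.filter (fun e => ¬ w e ≠ e.2)) = #N :=
    Finset.card_filter_add_card_filter_not _
  omega

open scoped Classical in
/-- the crossings in a set of segments -/
noncomputable def crs (F : Finset Seg) : Finset (Seg × Seg) :=
  (F ×ˢ F).filter (fun x => ss x.2 < ss x.1 ∧ Cr x.1 x.2)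

/-- the weak crossing lemma -/
theorem planar_crs (hV : GP V) :
    ∀ (n : ℕ) (F : Finset Seg), #F = n → (∀ e ∈ F, e.1 ∈ V ∧ e.2 ∈ V ∧ e.1.1 < e.2.1) →
      #F ≤ 3 * #V + #(crs F) := by
  classical
  intro n
  induction n with
  | zero => intro F h _; omega
  | succ n ih =>
    intro F hn hF
    by_cases h : ∃ e ∈ F, ∃ f ∈ F, Cr e f
    · obtain ⟨e, he, f, hf, hef⟩ := h
      have h1 : #(F.erase e) = n := by rw [card_erase_of_mem he, hn]; rfl
      have h2 := ih (F.erase e) h1 (fun g hg => hF g (mem_of_mem_erase hg))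
      have h3 : #(crs (F.erase e)) < #(crs F) := by
        apply Finset.card_lt_card
        rw [Finset.ssubset_iff_of_subset]
        · rcases lt_or_gt_of_ne hef.1 with h | h
          · refine ⟨(f, e), mem_filter.mpr ⟨mem_product.mpr ⟨hf, he⟩, h, hef.symm⟩, ?_⟩
            intro hc
            have := (mem_product.mp (mem_filter.mp hc).1).2
            exact (mem_erase.mp this).1 rfl
          · refine ⟨(e, f), mem_filter.mpr ⟨mem_product.mpr ⟨he, hf⟩, h, hef⟩, ?_⟩
            intro hc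
            have := (mem_product.mp (mem_filter.mp hc).1).1
            exact (mem_erase.mp this).1 rfl
        · intro x hx
          unfold crs at hx ⊢
          rw [mem_filter, mem_product] at hx ⊢
          exact ⟨⟨mem_of_mem_erase hx.1.1, mem_of_mem_erase hx.1.2⟩, hx.2⟩
      omega
    · push Not at h
      have := planar hV hF h
      omega

end

end Pool.Agent.TH124.KE
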