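import Pool.Agent.TH124.KE.Color
import Pool.Agent.TH124.KE.Chain
import Pool.Agent.TH124.KE.Cut

/-!
# The number of `k`-edges when all but few points are covered by sets in convex position
-/

set_option autoImplicit false

namespace Pool.Agent.TH124.KE

open Finset

variable {P : Finset (ℝ × ℝ)} {k : ℕ}

open scoped Classical in
lemma inc_le_deg (a : ℝ × ℝ) : #((kes P k).filter (fun e => e.1 = a ∨ e.2 = a)) ≤ deg P k a := by
  unfold deg
  refine Finset.card_le_card_of_injOn (fun e => if e.1 = a then e.2 else e.1) ?_ ?_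
  · intro e he
    rw [mem_coe, mem_filter, mem_kes] at he
    rw [mem_coe, mem_filter]
    dsimp only
    by_cases h : e.1 = a
    · rw [if_pos h]
      exact ⟨he.1.2.1, Or.inl (h ▸ he.1)⟩
    · rw [if_neg h]
      have h2 := he.2.resolve_left h
      exact ⟨he.1.1, Or.inr (h2 ▸ he.1)⟩
  · intro e he f hf hef
    rw [mem_coe, mem_filter, mem_kes] at he hf
    dsimp only at hef
    by_cases h : e.1 = a
    · rw [if_pos h] at hef
      by_cases h' : f.1 = a
      · rw [if_pos h'] at hef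
        exact Prod.ext (h.trans h'.symm) hef
      · rw [if_neg h'] at hef
        have h2 := hf.2.resolve_left h'
        have h3 := he.1.2.2.1
        have h4 := hf.1.2.2.1
        rw [h, hef] at h3
        rw [h2] at h4
        linarith
    · rw [if_neg h] at hef
      have h2 := he.2.resolve_left h
      by_cases h' : f.1 = a
      · rw [if_pos h'] at hef
        have h3 := he.1.2.2.1
        have h4 := hf.1.2.2.1
        rw [h2, hef] at h3
        rw [h'] at h4
        linarith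
      · rw [if_neg h'] at hef
        have h3 := hf.2.resolve_left h'
        exact Prod.ext hef (h2.trans h3.symm)

/-- The counting bound for every scale `s`. -/
theorem total (hP : GP P) {c : ℕ} (A : Fin c → Finset (ℝ × ℝ))
    (hA : ∀ i, ∀ a ∈ A i, Ext (A i) a) (s : ℕ) (hs : 0 < s) :
    s ^ 2 * #(kes P k) ≤ 4 * c * #P * s ^ 2 + 3 * s ^ 3 * #(P \ univ.biUnion A) +
      #(crs (kes P k)) := by
  classical
  set B := P \ univ.biUnion A with hB
  set K₂ := (kes P k).filter (fun e => e.1 ∈ B ∧ e.2 ∈ B) with hK₂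
  set K₁ := (kes P k).filter (fun e => ¬ (e.1 ∈ B ∧ e.2 ∈ B)) with hK₁
  have h0 : #K₂ + #K₁ = #(kes P k) := Finset.card_filter_add_card_filter_not _
  have h1 : #K₁ ≤ 4 * c * #P := by
    have hsub : K₁ ⊆ univ.biUnion (fun i : Fin c => (A i ∩ P).biUnion
        (fun a => (kes P k).filter (fun e => e.1 = a ∨ e.2 = a))) := by
      intro e he
      rw [hK₁, mem_filter] at he
      have hk := mem_kes.mp he.1
      have : (∃ i, e.1 ∈ A i) ∨ (∃ i, e.2 ∈ A i) := by
        by_contra hcon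
        push Not at hcon
        apply he.2
        rw [hB, mem_sdiff, mem_sdiff]
        refine ⟨⟨hk.1, ?_⟩, ⟨hk.2.1, ?_⟩⟩
        · simp only [mem_biUnion, mem_univ, true_and, not_exists]
          exact hcon.1
        · simp only [mem_biUnion, mem_univ, true_and, not_exists]
          exact hcon.2
      simp only [mem_biUnion, mem_univ, true_and, mem_filter, mem_inter]
      rcases this with ⟨i, hi⟩ | ⟨i, hi⟩
      · exact ⟨i, e.1, ⟨hi, hk.1⟩, he.1, Or.inl rfl⟩
      · exact ⟨i, e.2, ⟨hi, hk.2.1⟩, he.1, Or.inr rfl⟩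
    have h2 : ∀ i : Fin c, #((A i ∩ P).biUnion
        (fun a => (kes P k).filter (fun e => e.1 = a ∨ e.2 = a))) ≤ 4 * #P := by
      intro i
      refine Finset.card_biUnion_le.trans ?_
      refine (Finset.sum_le_sum fun a _ => inc_le_deg a).trans ?_
      refine sum_deg_le hP Finset.inter_subset_right ?_
      intro a ha
      obtain ⟨τ, hτ⟩ := hA i a (mem_inter.mp ha).1
      refine ⟨τ, ?_⟩
      rcases hτ with hτ | hτ
      · exact Or.inl fun q hq => hτ q (mem_inter.mp hq).1
      · exact Or.inr fun q hq => hτ q (mem_inter.mp hq).1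
    calc #K₁ ≤ _ := Finset.card_le_card hsub
      _ ≤ ∑ i : Fin c, 4 * #P := Finset.card_biUnion_le.trans (Finset.sum_le_sum fun i _ => h2 i)
      _ = 4 * c * #P := by simp; ring
  have h3 := crossing_lemma (hP.mono (Finset.sdiff_subset : B ⊆ P)) (F := K₂) (by
    intro e he
    rw [hK₂, mem_filter, mem_kes] at he
    exact ⟨he.2.1, he.2.2, he.1.2.2.1⟩) s hs
  have h4 : #(crs K₂) ≤ #(crs (kes P k)) := by
    apply Finset.card_le_card
    intro x hx
    unfold crs at hx ⊢
    rw [mem_filter, mem_product] at hx ⊢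
    exact ⟨⟨(mem_filter.mp hx.1.1).1, (mem_filter.mp hx.1.2).1⟩, hx.2⟩
  have h5 : s ^ 2 * #K₁ ≤ s ^ 2 * (4 * c * #P) := Nat.mul_le_mul_left _ h1
  calc s ^ 2 * #(kes P k) = s ^ 2 * #K₂ + s ^ 2 * #K₁ := by rw [← h0]; ring
    _ ≤ _ := by nlinarith

lemma two_mul_pairs (P : Finset (ℝ × ℝ)) (k : ℕ) : 2 * #(many P k) ≤ #P ^ 2 := by
  classical
  have h1 : #(many P k) = #((many P k).image Prod.swap) := by
    rw [Finset.card_image_of_injective _ Prod.swap_injective]
  have h2 : Disjoint (many P k) ((many P k).image Prod.swap) := by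
    rw [Finset.disjoint_left]
    intro x hx hx'
    obtain ⟨y, hy, rfl⟩ := mem_image.mp hx'
    unfold many at hx hy
    rw [mem_filter] at hx hy
    have := hx.2.1
    have := hy.2.1
    simp only [Prod.fst_swap, Prod.snd_swap] at *
    linarith
  have h3 : many P k ∪ (many P k).image Prod.swap ⊆ P ×ˢ P := by
    intro x hx
    rcases mem_union.mp hx with hx | hx
    · exact (mem_filter.mp hx).1
    · obtain ⟨y, hy, rfl⟩ := mem_image.mp hx
      have := mem_product.mp (mem_filter.mp hy).1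
      exact mem_product.mpr ⟨this.2, this.1⟩
  have h4 := Finset.card_le_card h3
  rw [Finset.card_union_of_disjoint h2, ← h1, card_product] at h4
  nlinarith

/-- choosing the scale: real form of the crossing bound -/
lemma scale {N M n m X : ℕ} (h : ∀ s : ℕ, 0 < s → s ^ 2 * N ≤ M * s ^ 2 + 3 * s ^ 3 * m + X)
    (hm : 0 < m) (hX : 2 * X ≤ n ^ 2) (hmn : m ≤ n) :
    (N : ℝ) ≤ M + 7 * ((m : ℝ) * n) ^ (2 / 3 : ℝ) := by
  have hmR : (0 : ℝ) < m := by exact_mod_cast hm
  have hmn' : (m : ℝ) ≤ n := by exact_mod_cast hmn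
  have hm1 : (1 : ℝ) ≤ m := by exact_mod_cast hm
  have hn1 : (1 : ℝ) ≤ n := hm1.trans hmn'
  set Y : ℝ := ((m : ℝ) * n) ^ (2 / 3 : ℝ) with hY
  set ρ : ℝ := Y / m with hρ
  have hY0 : 0 < Y := Real.rpow_pos_of_pos (by positivity) _
  have hρ0 : 0 < ρ := div_pos hY0 hmR
  have hY3 : Y ^ 3 = ((m : ℝ) * n) ^ 2 := by
    rw [hY, ← Real.rpow_natCast, ← Real.rpow_mul (by positivity), ← Real.rpow_natCast]
    norm_num
  have hρ3 : ρ ^ 3 * m = (n : ℝ) ^ 2 := by
    rw [hρ, div_pow, hY3]
    field_simp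
  have hρ1 : 1 ≤ ρ := by
    by_contra hcon
    push Not at hcon
    have h1 : ρ ^ 3 < 1 := pow_lt_one₀ hρ0.le hcon (by norm_num)
    have h2 : (n : ℝ) ^ 2 < m := by rw [← hρ3]; nlinarith
    nlinarith
  set s := ⌈ρ⌉₊ with hs
  have hs1 : ρ ≤ s := Nat.le_ceil ρ
  have hs2 : (s : ℝ) ≤ 2 * ρ := by
    have := (Nat.ceil_lt_add_one hρ0.le).le
    rw [← hs] at this
    linarith
  have hspos : 0 < s := by
    have : (0 : ℝ) < s := lt_of_lt_of_le hρ0 hs1
    exact_mod_cast this
  have h1 := h s hspos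
  have h2 : (s : ℝ) ^ 2 * N ≤ M * (s : ℝ) ^ 2 + 3 * (s : ℝ) ^ 3 * m + X := by exact_mod_cast h1
  have h3 : 2 * (X : ℝ) ≤ (n : ℝ) ^ 2 := by exact_mod_cast hX
  have h4 : ρ * m = Y := by rw [hρ]; field_simp
  have hsR : (0 : ℝ) < s := by exact_mod_cast hspos
  have h5 : (X : ℝ) ≤ (s : ℝ) ^ 2 * Y := by
    have : (n : ℝ) ^ 2 = ρ ^ 2 * Y := by rw [← hρ3, ← h4]; ring
    have h6 : ρ ^ 2 ≤ (s : ℝ) ^ 2 := pow_le_pow_left₀ hρ0.le hs1 2
    nlinarith
  have h7 : 3 * (s : ℝ) ^ 3 * m ≤ (s : ℝ) ^ 2 * (6 * Y) := by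
    have : (s : ℝ) * m ≤ 2 * Y := by rw [← h4]; nlinarith
    nlinarith [sq_nonneg (s : ℝ)]
  have h8 : (s : ℝ) ^ 2 * N ≤ (s : ℝ) ^ 2 * (M + 7 * Y) := by nlinarith
  exact le_of_mul_le_mul_left h8 (by positivity)

/-- If all but `m` of the `n` points are covered by `c` sets in convex position then there are
at most `4 c n + 7 (m n) ^ (2 / 3)` edges with exactly `k` points below. -/
theorem kes_bound (hP : GP P) {c : ℕ} (A : Fin c → Finset (ℝ × ℝ))
    (hA : ∀ i, ∀ a ∈ A i, Ext (A i) a) :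
    (#(kes P k) : ℝ) ≤ 4 * c * #P + 7 * ((#(P \ univ.biUnion A) : ℝ) * #P) ^ (2 / 3 : ℝ) := by
  classical
  have h := fun s hs => total (k := k) hP A hA s hs
  rcases Nat.eq_zero_or_pos #(P \ univ.biUnion A) with h0 | h0
  · rw [h0]
    have h1 : ∀ s : ℕ, 0 < s → s ^ 2 * #(kes P k) ≤ s ^ 2 * (4 * c * #P) + #P ^ 2 := by
      intro s hs
      have h2 := h s hs
      rw [h0] at h2
      have h3 := crs_le (k := k) hP
      have h4 := two_mul_pairs P k
      nlinarith
    have h2 : #(kes P k) ≤ 4 * c * #P := by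
      by_contra hcon
      push Not at hcon
      have h3 := h1 (#P + 1) (by omega)
      have h4 : (#P + 1) ^ 2 * (4 * c * #P + 1) ≤ (#P + 1) ^ 2 * #(kes P k) :=
        Nat.mul_le_mul_left _ hcon
      nlinarith
    have h3 : (#(kes P k) : ℝ) ≤ 4 * c * #P := by exact_mod_cast h2
    have h4 : (0 : ℝ) ≤ 7 * ((((0 : ℕ) : ℝ)) * #P) ^ (2 / 3 : ℝ) := by positivity
    linarith
  · have h5 := scale (N := #(kes P k)) (M := 4 * c * #P) (n := #P) (m := #(P \ univ.biUnion A))
      (X := #(crs (kes P k))) (fun s hs => by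
        have := h s hs
        nlinarith) h0 (by
        have h3 := crs_le (k := k) hP
        have h4 := two_mul_pairs P k
        omega) (Finset.card_le_card Finset.sdiff_subset)
    push_cast at h5
    exact h5

end Pool.Agent.TH124.KE
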