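import Pool.Agent.W296.HL1

/-!
# Steps of a `±1` walk between two values

Consequences of `Pool.Agent.W296.HL.walk`.
-/

set_option autoImplicit false

namespace Pool.Agent.TH124.KE

open Finset Pool.Agent.W296.HL

set_option linter.unusedSectionVars false

variable {ι : Type*} [DecidableEq ι]

/-- the difference between the numbers of down-steps and up-steps over one level -/
lemma walk_diff (s : ι → ℝ) (B : ι → Prop) [DecidablePred B] (t : ℤ) (L : Finset ι)
    (hs : Set.InjOn s L) :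
    (#{x ∈ L | ¬ B x ∧ wlk s B L x = t + 1} : ℤ) - #{x ∈ L | B x ∧ wlk s B L x = t} =
      (if t + 1 ≤ 0 then 1 else 0) - (if t + 1 ≤ ∑ y ∈ L, stp B y then 1 else 0) := by
  rw [← walk s B t L hs, Finset.card_filter, Finset.card_filter]
  push_cast
  rw [← Finset.sum_sub_distrib]
  refine Finset.sum_congr rfl fun x _ => ?_
  by_cases hB : B x
  · by_cases h1 : wlk s B L x = t <;> simp [hB, h1]
  · by_cases h1 : wlk s B L x = t + 1 <;> simp [hB, h1]

/-- the value of the walk before `x`, seen from an earlier element `z` -/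
lemma wlk_split (s : ι → ℝ) (B : ι → Prop) [DecidablePred B] (L : Finset ι)
    (hs : Set.InjOn s L) {z : ι} (hz : z ∈ L) {r : ℝ} (hr : s z < r) :
    (∑ y ∈ L, if s y < r then stp B y else 0) =
      wlk s B L z + stp B z + ∑ y ∈ L, if s z < s y ∧ s y < r then stp B y else 0 := by
  have h1 : stp B z = ∑ y ∈ L, if y = z then stp B y else 0 := by
    rw [Finset.sum_ite_eq' L z]
    simp [hz]
  rw [h1]
  unfold wlk
  rw [← Finset.sum_add_distrib, ← Finset.sum_add_distrib]
  refine Finset.sum_congr rfl fun y hy => ?_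
  by_cases hyz : y = z
  · subst hyz
    simp [hr]
  · have hne : s y ≠ s z := fun h => hyz (hs (by simpa using hy) (by simpa using hz) h)
    rcases lt_or_gt_of_ne hne with h | h
    · have h2 : s y < r := h.trans hr
      have h3 : ¬ s z < s y := not_lt.mpr h.le
      simp [h, h2, h3, hyz]
    · have h3 : ¬ s y < s z := not_lt.mpr h.le
      by_cases h2 : s y < r
      · simp [h, h2, h3, hyz]
      · simp [h2, h3, hyz]

/-- inside an interval of slopes after `z` -/
lemma wlk_mid (s : ι → ℝ) (B : ι → Prop) [DecidablePred B] (L : Finset ι)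
    (hs : Set.InjOn s L) {z : ι} (hz : z ∈ L) {r : ℝ} {x : ι}
    (hx : x ∈ L.filter (fun y => s z < s y ∧ s y < r)) :
    wlk s B L x = wlk s B L z + stp B z +
      wlk s B (L.filter (fun y => s z < s y ∧ s y < r)) x := by
  rw [mem_filter] at hx
  have h := wlk_split s B L hs hz hx.2.1
  have e : wlk s B L x = ∑ y ∈ L, if s y < s x then stp B y else 0 := rfl
  rw [e, h]
  congr 1
  unfold wlk
  rw [Finset.sum_filter]
  refine Finset.sum_congr rfl fun y _ => ?_
  by_cases h1 : s z < s y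
  · by_cases h2 : s y < s x
    · simp [h1, h2, h2.trans hx.2.2]
    · simp [h2]
  · simp [h1]

/-- a walk that is above `t` after `z` and at most `t` before `r` steps down from `t + 1`
between them -/
lemma walk_down (s : ι → ℝ) (B : ι → Prop) [DecidablePred B] (t : ℤ) (L : Finset ι)
    (hs : Set.InjOn s L) {z : ι} (hz : z ∈ L) {r : ℝ} (hr : s z < r)
    (ha : t + 1 ≤ wlk s B L z + stp B z)
    (hb : (∑ y ∈ L, if s y < r then stp B y else 0) ≤ t) :
    ∃ x ∈ L, ¬ B x ∧ wlk s B L x = t + 1 ∧ s z < s x ∧ s x < r := by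
  set a := wlk s B L z + stp B z with hadef
  set L' := L.filter (fun y => s z < s y ∧ s y < r) with hL'
  have h := walk_diff s B (t - a) L' (hs.mono (Finset.coe_subset.mpr (Finset.filter_subset _ _)))
  have hsum := wlk_split s B L hs hz hr
  have e2 : (∑ y ∈ L', stp B y) = ∑ y ∈ L, if s z < s y ∧ s y < r then stp B y else 0 := by
    rw [hL', Finset.sum_filter]
  rw [← e2] at hsum
  rw [if_pos (by omega), if_neg (by omega)] at h
  have hpos : 0 < #{x ∈ L' | ¬ B x ∧ wlk s B L' x = t - a + 1} := by omega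
  obtain ⟨x, hx⟩ := Finset.card_pos.mp hpos
  rw [mem_filter] at hx
  have h3 := wlk_mid s B L hs hz (r := r) hx.1
  have hxL := (mem_filter.mp hx.1)
  refine ⟨x, hxL.1, hx.2.1, ?_, hxL.2.1, hxL.2.2⟩
  have h4 := hx.2.2
  rw [← hL'] at h3
  omega

/-- a walk that is at most `t` after `z` and above `t` before `r` steps up from `t`
between them -/
lemma walk_up (s : ι → ℝ) (B : ι → Prop) [DecidablePred B] (t : ℤ) (L : Finset ι)
    (hs : Set.InjOn s L) {z : ι} (hz : z ∈ L) {r : ℝ} (hr : s z < r)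
    (ha : wlk s B L z + stp B z ≤ t)
    (hb : t + 1 ≤ (∑ y ∈ L, if s y < r then stp B y else 0)) :
    ∃ x ∈ L, B x ∧ wlk s B L x = t ∧ s z < s x ∧ s x < r := by
  set a := wlk s B L z + stp B z with hadef
  set L' := L.filter (fun y => s z < s y ∧ s y < r) with hL'
  have h := walk_diff s B (t - a) L' (hs.mono (Finset.coe_subset.mpr (Finset.filter_subset _ _)))
  have hsum := wlk_split s B L hs hz hr
  have e2 : (∑ y ∈ L', stp B y) = ∑ y ∈ L, if s z < s y ∧ s y < r then stp B y else 0 := by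
    rw [hL', Finset.sum_filter]
  rw [← e2] at hsum
  rw [if_neg (by omega), if_pos (by omega)] at h
  have hpos : 0 < #{x ∈ L' | B x ∧ wlk s B L' x = t - a} := by omega
  obtain ⟨x, hx⟩ := Finset.card_pos.mp hpos
  rw [mem_filter] at hx
  have h3 := wlk_mid s B L hs hz (r := r) hx.1
  have hxL := (mem_filter.mp hx.1)
  refine ⟨x, hxL.1, hx.2.1, ?_, hxL.2.1, hxL.2.2⟩
  have h4 := hx.2.2
  rw [← hL'] at h3
  omega

/-- restricting to an initial part of the walk -/
lemma wlk_initial (s : ι → ℝ) (B D : ι → Prop) [DecidablePred B] [DecidablePred D]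
    (L : Finset ι) (hD : ∀ y ∈ L, ∀ z ∈ L, D y → s z < s y → D z) {x : ι} (hx : x ∈ L)
    (hDx : D x) : wlk s B (L.filter D) x = wlk s B L x := by
  unfold wlk
  rw [Finset.sum_filter]
  refine Finset.sum_congr rfl fun y hy => ?_
  by_cases h : s y < s x
  · simp [h, hD x hx y hy hDx h]
  · simp [h]

/-- restricting to a final part of the walk -/
lemma wlk_final (s : ι → ℝ) (B D : ι → Prop) [DecidablePred B] [DecidablePred D]
    (L : Finset ι) (hs : Set.InjOn s L) (hD : ∀ y ∈ L, ∀ z ∈ L, D y → s z < s y → D z) {x : ι}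
    (hx : x ∈ L) (hDx : ¬ D x) :
    wlk s B L x = (∑ y ∈ L.filter D, stp B y) + wlk s B (L.filter (fun y => ¬ D y)) x := by
  unfold wlk
  rw [Finset.sum_filter, Finset.sum_filter, ← Finset.sum_add_distrib]
  refine Finset.sum_congr rfl fun y hy => ?_
  by_cases h : D y
  · have h1 : s y < s x := by
      rcases lt_trichotomy (s y) (s x) with h1 | h1 | h1
      · exact h1
      · have := hs (by simpa using hy) (by simpa using hx) h1
        subst this
        exact absurd h hDx
      · exact absurd (hD y hy x hx h h1) hDx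
    simp [h, h1]
  · simp [h]

/-- over each level the up-steps and down-steps of an initial part differ by at most one -/
lemma walk_initial (s : ι → ℝ) (B D : ι → Prop) [DecidablePred B] [DecidablePred D] (t : ℤ)
    (L : Finset ι) (hs : Set.InjOn s L) (hD : ∀ y ∈ L, ∀ z ∈ L, D y → s z < s y → D z) :
    #{x ∈ L | D x ∧ B x ∧ wlk s B L x = t} ≤ #{x ∈ L | D x ∧ ¬ B x ∧ wlk s B L x = t + 1} + 1 ∧
    #{x ∈ L | D x ∧ ¬ B x ∧ wlk s B L x = t + 1} ≤ #{x ∈ L | D x ∧ B x ∧ wlk s B L x = t} + 1 := by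
  have h := walk_diff s B t (L.filter D) (hs.mono (Finset.coe_subset.mpr (Finset.filter_subset _ _)))
  have e1 : {x ∈ L.filter D | ¬ B x ∧ wlk s B (L.filter D) x = t + 1} =
      {x ∈ L | D x ∧ ¬ B x ∧ wlk s B L x = t + 1} := by
    ext x
    simp only [mem_filter]
    constructor
    · rintro ⟨⟨h1, h2⟩, h3, h4⟩
      rw [wlk_initial s B D L hD h1 h2] at h4
      exact ⟨h1, h2, h3, h4⟩
    · rintro ⟨h1, h2, h3, h4⟩
      refine ⟨⟨h1, h2⟩, h3, ?_⟩
      rw [wlk_initial s B D L hD h1 h2]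
      exact h4
  have e2 : {x ∈ L.filter D | B x ∧ wlk s B (L.filter D) x = t} =
      {x ∈ L | D x ∧ B x ∧ wlk s B L x = t} := by
    ext x
    simp only [mem_filter]
    constructor
    · rintro ⟨⟨h1, h2⟩, h3, h4⟩
      rw [wlk_initial s B D L hD h1 h2] at h4
      exact ⟨h1, h2, h3, h4⟩
    · rintro ⟨h1, h2, h3, h4⟩
      refine ⟨⟨h1, h2⟩, h3, ?_⟩
      rw [wlk_initial s B D L hD h1 h2]
      exact h4
  rw [e1, e2] at h
  have h2 : -1 ≤ (if t + 1 ≤ 0 then (1 : ℤ) else 0) -
      (if t + 1 ≤ ∑ y ∈ L.filter D, stp B y then 1 else 0) ∧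
      (if t + 1 ≤ 0 then (1 : ℤ) else 0) -
      (if t + 1 ≤ ∑ y ∈ L.filter D, stp B y then 1 else 0) ≤ 1 := by
    constructor <;> split_ifs <;> norm_num
  omega

/-- over each level the up-steps and down-steps of a final part differ by at most one -/
lemma walk_final (s : ι → ℝ) (B D : ι → Prop) [DecidablePred B] [DecidablePred D] (t : ℤ)
    (L : Finset ι) (hs : Set.InjOn s L) (hD : ∀ y ∈ L, ∀ z ∈ L, D y → s z < s y → D z) :
    #{x ∈ L | ¬ D x ∧ B x ∧ wlk s B L x = t} ≤
      #{x ∈ L | ¬ D x ∧ ¬ B x ∧ wlk s B L x = t + 1} + 1 ∧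
    #{x ∈ L | ¬ D x ∧ ¬ B x ∧ wlk s B L x = t + 1} ≤
      #{x ∈ L | ¬ D x ∧ B x ∧ wlk s B L x = t} + 1 := by
  set c := ∑ y ∈ L.filter D, stp B y with hc
  have h := walk_diff s B (t - c) (L.filter (fun y => ¬ D y)) (hs.mono (Finset.coe_subset.mpr (Finset.filter_subset _ _)))
  have e1 : {x ∈ L.filter (fun y => ¬ D y) | ¬ B x ∧
        wlk s B (L.filter (fun y => ¬ D y)) x = t - c + 1} =
      {x ∈ L | ¬ D x ∧ ¬ B x ∧ wlk s B L x = t + 1} := by
    ext x
    simp only [mem_filter]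
    constructor
    · rintro ⟨⟨h1, h2⟩, h3, h4⟩
      have h5 := wlk_final s B D L hs hD h1 h2
      exact ⟨h1, h2, h3, by omega⟩
    · rintro ⟨h1, h2, h3, h4⟩
      have h5 := wlk_final s B D L hs hD h1 h2
      exact ⟨⟨h1, h2⟩, h3, by omega⟩
  have e2 : {x ∈ L.filter (fun y => ¬ D y) | B x ∧
        wlk s B (L.filter (fun y => ¬ D y)) x = t - c} =
      {x ∈ L | ¬ D x ∧ B x ∧ wlk s B L x = t} := by
    ext x
    simp only [mem_filter]
    constructor
    · rintro ⟨⟨h1, h2⟩, h3, h4⟩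
      have h5 := wlk_final s B D L hs hD h1 h2
      exact ⟨h1, h2, h3, by omega⟩
    · rintro ⟨h1, h2, h3, h4⟩
      have h5 := wlk_final s B D L hs hD h1 h2
      exact ⟨⟨h1, h2⟩, h3, by omega⟩
  rw [e1, e2] at h
  have h2 : -1 ≤ (if t - c + 1 ≤ 0 then (1 : ℤ) else 0) -
      (if t - c + 1 ≤ ∑ y ∈ L.filter (fun y => ¬ D y), stp B y then 1 else 0) ∧
      (if t - c + 1 ≤ 0 then (1 : ℤ) else 0) -
      (if t - c + 1 ≤ ∑ y ∈ L.filter (fun y => ¬ D y), stp B y then 1 else 0) ≤ 1 := by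
    constructor <;> split_ifs <;> norm_num
  omega

end Pool.Agent.TH124.KE
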